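import Pool.Agent.H889.SY.GeoB

/-!
# Sections with a nontrivial centraliser: larger quotients
-/

set_option autoImplicit false
set_option linter.all false

open Polynomial FF

namespace Pool.Agent.H889.SY

open Pool.Agent.Y157.PS Pool.Agent.Y948.PS Pool.Agent.H889.PS Pool.Agent.H889.LM

section defs

/-- `γ` is an automorphism of `M` over `k̄(x)` which commutes with `S σ` for `σ ∈ H` -/
structure SyN (k : Type) {F Ω : Type} [Field k] [Field F] [Field Ω] [Algebra k Ω] [Algebra F Ω]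
    (x : F) (M N : IntermediateField F Ω) {G : Type} [Group G] (S : G →* (N ≃ₐ[F] N))
    (H : Subgroup G) (γ : M ≃+* M) : Prop where
  con : ∀ z : M, IsAlgebraic k (z : Ω) → γ z = z
  fix : γ (algebraMap F M x) = algebraMap F M x
  com : ∀ σ ∈ H, ∀ (z w : M) (a b : N), (a : Ω) = z → (b : Ω) = (γ z : Ω) → (S σ a : Ω) = w →
      (S σ b : Ω) = (γ w : Ω)

/-- `W` is over `U`, and `M_U` is ramified over `k̄(x)` at `W` -/
structure PtU (ℓ : ℕ) (k : Type) {F Ω : Type} [Field k] [Field F] [Field Ω] [Algebra k F]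
    [Algebra F Ω] [Algebra k Ω] (U : Set (ValuationSubring F)) (x : F) (N : IntermediateField F Ω)
    (W : ValuationSubring N) : Prop where
  con : ∀ c : k, algebraMap F N (algebraMap k F c) ∈ W
  ram : RamU ℓ k U x N W
  mem : W.comap (algebraMap F N) ∈ U

end defs

section main

variable {k F Ω : Type} [Field k] [CharZero k]
    [Field F] [Field Ω] [Algebra k F] [Algebra F Ω] [Algebra k Ω] [IsScalarTower k F Ω]
    [IsAlgClosed Ω] [Algebra.IsAlgebraic F Ω]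

theorem finT {ℓ : ℕ} [Fact ℓ.Prime] (f : k[X]) (hf0 : f ≠ 0)
    (hRR : ∀ B : Finset (algebraicClosure k Ω), (∀ θ, θ ∈ B ↔ aeval θ f = 0) →
      RR ℓ k (algebraicClosure k Ω) B)
    (x : F) (hx : Transcendental k x)
    (U : Set (ValuationSubring F)) (hUk : ∀ O ∈ U, ∀ c : k, algebraMap k F c ∈ O)
    (hUsat : ∀ O ∈ U, ∀ O' : ValuationSubring F, (∀ c : k, algebraMap k F c ∈ O') →
      (∀ r ∈ IntermediateField.adjoin k {x}, r ∈ O' ↔ r ∈ O) → O' ∈ U)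
    (hUf : ∀ O : ValuationSubring F, O ≠ ⊤ → (∀ c : k, algebraMap k F c ∈ O) → x ∈ O →
      aeval x f ∉ O.nonunits → O ∈ U)
    (L : IntermediateField (ratL (Ω := Ω) k x) Ω) (hL : Lev ℓ L)
    (hFL : ∀ z : F, algebraMap F Ω z ∈ L)
    (hLu : ∀ W : ValuationSubring Ω, (∀ c : k, algebraMap k Ω c ∈ W) →
      W.comap (algebraMap F Ω) ∈ U → ∀ z ∈ L, z ≠ 0 →
      ∃ t ∈ geomF k F Ω, t ≠ 0 ∧ IsU W (z / t))
    (hLf : ∀ W : ValuationSubring Ω, (∀ c : k, algebraMap k Ω c ∈ W) → algebraMap F Ω x ∈ W →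
      algebraMap F Ω (aeval x f) ∉ W.nonunits → ∀ z ∈ L, z ≠ 0 →
        ∃ t ∈ ratL (Ω := Ω) k x, t ≠ 0 ∧ IsU W (z / t))
    (hbig : ∃ z ∈ maxPro ℓ k L Ω, z ∉ L)
    (N : IntermediateField F Ω) (hN : proU ℓ k F Ω U ≤ N)
    (S : (algebraicClosure k Ω ≃ₐ[k] algebraicClosure k Ω) →* (N ≃ₐ[F] N)) (hcont : Continuous S)
    (hcompat : ∀ σ (c : algebraicClosure k Ω) (z : N), (z : Ω) = (c : Ω) →
      (S σ z : Ω) = (σ c : Ω)) :
    (∀ (H : Subgroup (algebraicClosure k Ω ≃ₐ[k] algebraicClosure k Ω)), H.index ≠ 0 →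
      ∀ γ : proU ℓ k F Ω U ≃+* proU ℓ k F Ω U, γ ≠ RingEquiv.refl _ →
      SyN k x (proU ℓ k F Ω U) N S H γ →
      ∃ W : ValuationSubring N, PtU ℓ k U x N W ∧
        (∀ z : F, algebraMap F N z ∈ W →
          ∃ c : k, algebraMap F N (z - algebraMap k F c) ∈ W.nonunits) ∧
        (∀ z : N, (z : Ω) ∈ proU ℓ k F Ω U → z ∈ W → ∃ c : algebraicClosure k Ω,
          ∃ z' ∈ W.nonunits, (z' : Ω) = (z : Ω) - c) ∧
        (∀ σ, ∀ z : N, (z : Ω) ∈ proU ℓ k F Ω U → (S σ z ∈ W ↔ z ∈ W)) ∧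
        (∀ (H' : Subgroup (algebraicClosure k Ω ≃ₐ[k] algebraicClosure k Ω)), H'.index ≠ 0 →
          ∀ γ' : proU ℓ k F Ω U ≃+* proU ℓ k F Ω U, SyN k x (proU ℓ k F Ω U) N S H' γ' →
          ∀ z : proU ℓ k F Ω U, (⟨(γ' z : Ω), hN (γ' z).2⟩ : N) ∈ W ↔
            (⟨(z : Ω), hN z.2⟩ : N) ∈ W) ∧
        (∀ (H' : Subgroup (algebraicClosure k Ω ≃ₐ[k] algebraicClosure k Ω)), H'.index ≠ 0 →
          ∀ W' : ValuationSubring N, (∀ c : k, algebraMap F N (algebraMap k F c) ∈ W') →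
          RamU ℓ k U x N W' →
          (∀ σ ∈ H', ∀ z : N, (z : Ω) ∈ proU ℓ k F Ω U → (S σ z ∈ W' ↔ z ∈ W')) →
          ∀ z : N, (z : Ω) ∈ proU ℓ k F Ω U → (z ∈ W' ↔ z ∈ W))) ∧
    (∀ (H : Subgroup (algebraicClosure k Ω ≃ₐ[k] algebraicClosure k Ω)), H.index ≠ 0 →
      ∀ W : ValuationSubring N, PtU ℓ k U x N W →
      (∀ σ ∈ H, ∀ z : N, (z : Ω) ∈ proU ℓ k F Ω U → (S σ z ∈ W ↔ z ∈ W)) →
      (∃ γ : proU ℓ k F Ω U ≃+* proU ℓ k F Ω U, γ ≠ RingEquiv.refl _ ∧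
        ∃ H' : Subgroup (algebraicClosure k Ω ≃ₐ[k] algebraicClosure k Ω), H'.index ≠ 0 ∧
          SyN k x (proU ℓ k F Ω U) N S H' γ) ∧
      ∀ γ : proU ℓ k F Ω U ≃+* proU ℓ k F Ω U,
        (∀ z : proU ℓ k F Ω U, IsAlgebraic k (z : Ω) → γ z = z) →
        γ (algebraMap F (proU ℓ k F Ω U) x) = algebraMap F (proU ℓ k F Ω U) x →
        (∀ z : proU ℓ k F Ω U, (⟨(γ z : Ω), hN (γ z).2⟩ : N) ∈ W ↔
            (⟨(z : Ω), hN z.2⟩ : N) ∈ W) →
        ∃ H' : Subgroup (algebraicClosure k Ω ≃ₐ[k] algebraicClosure k Ω), H'.index ≠ 0 ∧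
          SyN k x (proU ℓ k F Ω U) N S H' γ) := by
  have hac : IsAlgClosure k (algebraicClosure k Ω) := inferInstance
  have hnor : Normal k (algebraicClosure k Ω) := IsAlgClosure.normal k _
  have hGal : IsGalois k (algebraicClosure k Ω) := ⟨⟩
  obtain ⟨Φ, hΦ, hΦ'⟩ := Pool.Agent.Y32.PS.restr (proU ℓ k F Ω U) N hN
    (fun σ z hz => proU_stable ℓ U σ z hz)
  obtain ⟨T, hTdef⟩ : ∃ T, T = Φ.comp S := ⟨_, rfl⟩
  have hTc : Continuous T := by rw [hTdef]; exact hΦ.comp hcont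
  have hT : ∀ (g : algebraicClosure k Ω ≃ₐ[k] algebraicClosure k Ω) (z : N)
      (w : proU ℓ k F Ω U), (w : Ω) = (z : Ω) → ((T g w : proU ℓ k F Ω U) : Ω) =
        ((S g z : N) : Ω) := fun g z w hw => by
    rw [hTdef]
    exact hΦ' (S g) z w hw
  have hTcompat : ∀ σ (c : algebraicClosure k Ω) (z : proU ℓ k F Ω U), (z : Ω) = (c : Ω) →
      (T σ z : Ω) = (σ c : Ω) := by
    intro σ c z hz
    rw [hT σ ⟨(z : Ω), hN z.2⟩ z rfl]
    exact hcompat σ c _ hz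
  obtain ⟨c1, c2⟩ := geoT f hf0 hRR x hx U hUk hUsat hUf L hL hFL hLu hLf hbig T hTc hTcompat
  obtain ⟨ι, hι⟩ : ∃ ι : proU ℓ k F Ω U →+* N, ι = ((IntermediateField.inclusion hN :
        proU ℓ k F Ω U →ₐ[F] N) : proU ℓ k F Ω U →+* N) := ⟨_, rfl⟩
  have hιΩ : ∀ z, ((ι z : N) : Ω) = (z : Ω) := fun z => by rw [hι]; rfl
  have hιc : ∀ z : F, ι (algebraMap F (proU ℓ k F Ω U) z) = algebraMap F N z := fun z => by
    rw [hι]; rfl
  -- symmetries
  have hcom : ∀ H γ, SyN k x (proU ℓ k F Ω U) N S H γ → SyM k x (proU ℓ k F Ω U) T H γ := by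
    rintro H γ ⟨h1, h2, h3⟩
    refine ⟨fun z hz => h1 _ (mem_algebraicClosure_iff.1 hz), h2, fun σ hσ z => ?_⟩
    apply Subtype.ext
    have h4 := h3 σ hσ z (T σ z) ⟨(z : Ω), hN z.2⟩ ⟨(γ z : Ω), hN (γ z).2⟩ rfl rfl
      (hT σ ⟨(z : Ω), hN z.2⟩ z rfl).symm
    rw [← h4]
    exact (hT σ ⟨(γ z : Ω), hN (γ z).2⟩ (γ z) rfl).symm
  have hcom' : ∀ H γ, SyM k x (proU ℓ k F Ω U) T H γ → SyN k x (proU ℓ k F Ω U) N S H γ := by
    rintro H γ ⟨h1, h2, h3⟩
    refine ⟨fun z hz => h1 z (mem_algebraicClosure_iff.2 hz), h2,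
      fun σ hσ z w a b ha hb hw => ?_⟩
    have h5 : w = T σ z := Subtype.ext ((hw.symm.trans (hT σ a z ha.symm).symm))
    rw [h5, h3 σ hσ, hT σ b (γ z) hb.symm]
  have hpt : ∀ W : ValuationSubring N, PtU ℓ k U x N W ↔
      ((∀ c : k, algebraMap F (proU ℓ k F Ω U) (algebraMap k F c) ∈ W.comap ι) ∧
        RamU ℓ k U x (proU ℓ k F Ω U) (W.comap ι) ∧
        (W.comap ι).comap (algebraMap F (proU ℓ k F Ω U)) ∈ U) := by
    intro W
    have h1 : (W.comap ι).comap (algebraMap F (proU ℓ k F Ω U)) = W.comap (algebraMap F N) := by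
      ext z
      change ι (algebraMap F (proU ℓ k F Ω U) z) ∈ W ↔ algebraMap F N z ∈ W
      rw [hιc]
    have h2 : ∀ c : k, algebraMap F (proU ℓ k F Ω U) (algebraMap k F c) ∈ W.comap ι ↔
        algebraMap F N (algebraMap k F c) ∈ W := by
      intro c
      rw [ValuationSubring.mem_comap, hιc]
    constructor
    · rintro ⟨a1, a2, a3⟩
      refine ⟨fun c => (h2 c).2 (a1 c), ?_, by rw [h1]; exact a3⟩
      rw [hι]
      exact ramU_down hN le_rfl W a2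
    · rintro ⟨a1, a2, a3⟩
      refine ⟨fun c => (h2 c).1 (a1 c), ?_, by rw [← h1]; exact a3⟩
      rw [hι] at a2
      exact ramU_up hN le_rfl W a2
  have hst : ∀ (W : ValuationSubring N) (σ : algebraicClosure k Ω ≃ₐ[k] algebraicClosure k Ω),
      (∀ z : N, (z : Ω) ∈ proU ℓ k F Ω U → (S σ z ∈ W ↔ z ∈ W)) ↔
        ∀ z, T σ z ∈ W.comap ι ↔ z ∈ W.comap ι := by
    intro W σ
    have h6 : ∀ (z : N) (z' : proU ℓ k F Ω U), (z' : Ω) = z → ι (T σ z') = S σ z := by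
      intro z z' hz
      apply Subtype.ext
      rw [hιΩ]
      exact hT σ z z' hz
    have h7 : ∀ (z : N) (z' : proU ℓ k F Ω U), (z' : Ω) = z → ι z' = z := by
      intro z z' hz
      apply Subtype.ext
      rw [hιΩ, hz]
    constructor
    · intro h z
      rw [ValuationSubring.mem_comap, ValuationSubring.mem_comap, h6 (ι z) z (hιΩ z).symm]
      exact h (ι z) (by rw [hιΩ]; exact z.2)
    · intro h z hz
      have h8 := h ⟨(z : Ω), hz⟩
      rw [ValuationSubring.mem_comap, ValuationSubring.mem_comap, h6 z _ rfl, h7 z _ rfl] at h8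
      exact h8
  have hrat : ∀ c : algebraicClosure k Ω, (∀ σ : algebraicClosure k Ω ≃ₐ[k]
      algebraicClosure k Ω, σ c = c) → ∃ c' : k, algebraMap k (algebraicClosure k Ω) c' = c := by
    intro c hc
    exact IntermediateField.mem_bot.1 ((InfiniteGalois.mem_bot_iff_fixed c).2 hc)
  refine ⟨?_, ?_⟩
  · intro H hH γ hγ1 hγ
    obtain ⟨W₀, a1, a2, a3, a4, a5, a6, a7⟩ := c1 H hH γ hγ1 (hcom H γ hγ)
    obtain ⟨W, hW⟩ := exists_ext (proU ℓ k F Ω U) N hN W₀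
    rw [← hι] at hW
    have hmem : ∀ z, ι z ∈ W ↔ z ∈ W₀ := by
      intro z
      rw [← hW]
      rfl
    refine ⟨W, (hpt W).2 (by rw [hW]; exact ⟨a1, a2, a3⟩), ?_, ?_, ?_, ?_, ?_⟩
    · intro z hz
      rw [← hιc, hmem] at hz
      obtain ⟨c, z', hz', hc⟩ := a4 _ hz
      obtain ⟨c', rfl⟩ := hrat c fun σ => res_fixed _ W₀ a1 σ (T σ) (a5 σ)
        (fun c z hz => hTcompat σ c z hz) z c z' hz' hc
      refine ⟨c', ?_⟩
      rw [← hιc, ← non_incl, hW]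
      have h5 : algebraMap F (proU ℓ k F Ω U) (z - algebraMap k F c') = z' := by
        apply Subtype.ext
        rw [hc]
        change algebraMap F Ω (z - algebraMap k F c') = algebraMap F Ω z - algebraMap k Ω c'
        rw [map_sub, ← IsScalarTower.algebraMap_apply]
      rw [h5]
      exact hz'
    · intro z hzM hz
      have h1 : (⟨(z : Ω), hzM⟩ : proU ℓ k F Ω U) ∈ W₀ := by
        rw [← hmem]
        have h2 : ι ⟨(z : Ω), hzM⟩ = z := by
          apply Subtype.ext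
          rw [hιΩ]
        rw [h2]
        exact hz
      obtain ⟨c, z', hz', hc⟩ := a4 _ h1
      refine ⟨c, ι z', ?_, by rw [hιΩ]; exact hc⟩
      rw [← non_incl, hW]
      exact hz'
    · intro σ
      rw [hst W σ, hW]
      exact a5 σ
    · intro H' hH' γ' hγ' z
      have h1 := a6 H' hH' γ' (hcom H' γ' hγ') z
      rw [← hmem, ← hmem] at h1
      have h2 : ∀ z : proU ℓ k F Ω U, (⟨(z : Ω), hN z.2⟩ : N) = ι z := fun z => by
        apply Subtype.ext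
        rw [hιΩ]
      rw [h2 (γ' z), h2 z]
      exact h1
    · intro H' hH' W' b1 b2 b3 z hz
      have h1 : W'.comap ι = W₀ := by
        refine a7 H' hH' _ (fun c => ?_) ?_ fun σ hσ => (hst W' σ).1 (b3 σ hσ)
        · rw [ValuationSubring.mem_comap, hιc]
          exact b1 c
        · rw [hι]
          exact ramU_down hN le_rfl W' b2
      have h2 : ι ⟨(z : Ω), hz⟩ = z := by
        apply Subtype.ext
        rw [hιΩ]
      rw [← h2, hmem, ← h1]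
      rfl
  · intro H hH W hW hsW
    obtain ⟨b1, b2, b3⟩ := (hpt W).1 hW
    obtain ⟨⟨γ, hγ1, H', hH', hγ⟩, d2⟩ := c2 H hH (W.comap ι) b1 b2 b3
      (fun σ hσ => (hst W σ).1 (hsW σ hσ))
    refine ⟨⟨γ, hγ1, H', hH', hcom' H' γ hγ⟩, fun γ hγ1 hγ2 hγW => ?_⟩
    obtain ⟨H', hH', hγ'⟩ := d2 γ ⟨fun z hz => hγ1 z (mem_algebraicClosure_iff.1 hz), hγ2,
      fun σ hσ z => by
        rw [Subgroup.mem_bot.1 hσ, map_one]
        rfl⟩ (fun z => by
      have h2 : ∀ z : proU ℓ k F Ω U, (⟨(z : Ω), hN z.2⟩ : N) = ι z := fun z => by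
        apply Subtype.ext
        rw [hιΩ]
      have h3 := hγW z
      rw [h2 (γ z), h2 z] at h3
      exact h3)
    exact ⟨H', hH', hcom' H' γ hγ'⟩

end main

end Pool.Agent.H889.SY
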