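import Pool.Agent.H889.SY.Open
import Pool.Graph.R_seed8.Y157.GT.All
import Pool.Graph.R_seed8.Y157.PS.Sup

/-! Rigidity over finitely generated fields. -/

set_option autoImplicit false
set_option linter.all false

open Polynomial FF

namespace Pool.Agent.H889.SY

open Pool.Agent.Y157.PS Pool.Agent.Y948.PS Pool.Agent.H889.PS Pool.Agent.H889.LM

/-- rigidity for all coverings branched over `B` and infinity -/
def RR (ℓ : ℕ) [Fact ℓ.Prime] (k κ : Type) [Field k] [Field κ] [Algebra k κ] (B : Finset κ) : Prop :=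
  MuB ℓ k κ ∧ ∀ (R M : Type) [Field R] [Field M] [Algebra κ R] [Algebra R M] [Algebra κ M]
    [IsScalarTower κ R M] (x : R) (ε : κ → ℕ) (ι : ℕ) (N₀ : IntermediateField R M),
    GCov ℓ κ R M x B ε ι N₀ → RigN k κ x N₀

theorem muB_of_dvr {A k κ : Type} [CommRing A] [IsDomain A] [IsDiscreteValuationRing A]
    [Finite (IsLocalRing.ResidueField A)] [Field k] [CharZero k] [Algebra A k] [IsFractionRing A k]
    [Field κ] [Algebra k κ] [Algebra A κ] [IsScalarTower A k κ] [IsAlgClosure k κ]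
    {ℓ : ℕ} [Fact ℓ.Prime] (hℓ : IsUnit (ℓ : A)) (V : ValuationSubring κ)
    (hVa : ∀ a : A, algebraMap A κ a ∈ V)
    (hVm : ∀ a ∈ IsLocalRing.maximalIdeal A, algebraMap A κ a ∈ V.nonunits) : MuB ℓ k κ := by
  haveI : IsAlgClosed κ := IsAlgClosure.isAlgClosed k
  haveI : Algebra.IsAlgebraic k κ := IsAlgClosure.isAlgebraic
  intro H hH
  obtain ⟨ϖ, hϖ⟩ := IsDiscreteValuationRing.exists_irreducible A
  have hBase : IB ℓ A k κ V ϖ := ⟨hℓ, hVa, hVm, hϖ⟩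
  obtain ⟨φ₀, hφ₀⟩ := Pool.Agent.Y183.PS.fro A k κ V hVa hVm
  obtain ⟨n, hn, hnU, hfro⟩ := Pool.Agent.R925.Q.exists_frob hφ₀ H hH
  obtain ⟨Q, hQ⟩ : ∃ Q, Q = Nat.card (IsLocalRing.ResidueField A) ^ n := ⟨_, rfl⟩
  have hQ2 : 1 < Q := by
    rw [hQ]
    exact Nat.one_lt_pow hn.ne' (Finite.one_lt_card (α := IsLocalRing.ResidueField A))
  refine ⟨Q - 1, fun m ζ hζ hfix => ?_⟩
  have hℓp := (Fact.out : ℓ.Prime)
  have h1 : (φ₀ ^ n) ζ = ζ ^ Q := by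
    rw [hQ]
    exact Pool.Agent.R925.Q.frob_rou' (φ := ((φ₀ ^ n : κ ≃ₐ[k] κ) : κ ≃+* κ)) hBase.ell hfro.2 hζ
  rw [hfix _ hnU] at h1
  have hζ0 : ζ ≠ 0 := by
    rintro rfl
    rw [zero_pow (pow_pos hℓp.pos m).ne'] at hζ
    exact zero_ne_one hζ
  have h2 : ζ ^ (Q - 1) = 1 := by
    have h3 : ζ ^ (Q - 1) * ζ = ζ := by
      rw [← pow_succ, Nat.sub_add_cancel hQ2.le, ← h1]
    exact mul_right_cancel₀ hζ0 (h3.trans (one_mul _).symm)
  obtain ⟨j, -, hj⟩ := (Nat.dvd_prime_pow hℓp).1 (orderOf_dvd_of_pow_eq_one hζ)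
  have h4 : ℓ ^ j ∣ Q - 1 := by rw [← hj]; exact orderOf_dvd_of_pow_eq_one h2
  have h5 : ℓ ^ j ≤ Q - 1 := Nat.le_of_dvd (by omega) h4
  have h6 : j < ℓ ^ j := Nat.lt_pow_self hℓp.one_lt
  rw [← orderOf_dvd_iff_pow_eq_one, hj]
  exact pow_dvd_pow ℓ (by omega)

theorem muB_up {ℓ : ℕ} {k κ : Type} [Field k] [Field κ] [Algebra k κ]
    (k₁ : IntermediateField k κ) (h : MuB ℓ k₁ κ) : MuB ℓ k κ := by
  intro U hU
  let f : (κ ≃ₐ[k₁] κ) →* (κ ≃ₐ[k] κ) :=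
    { toFun := AlgEquiv.restrictScalars k
      map_one' := rfl
      map_mul' := fun _ _ => rfl }
  obtain ⟨b, hb⟩ := h (U.comap f) (by
    rw [Subgroup.index_comap]
    exact fun h0 => hU (Subgroup.index_eq_zero_of_relIndex_eq_zero h0))
  exact ⟨b, fun m ζ hζ hfix => hb m ζ hζ fun σ hσ => hfix (f σ) hσ⟩

theorem rr_good {A k κ : Type} [CommRing A] [IsDomain A] [IsDiscreteValuationRing A]
    [Finite (IsLocalRing.ResidueField A)] [Field k] [CharZero k] [Algebra A k] [IsFractionRing A k]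
    [Field κ] [Algebra k κ] [Algebra A κ] [IsScalarTower A k κ] [IsAlgClosure k κ]
    {ℓ : ℕ} [Fact ℓ.Prime] (hℓ : IsUnit (ℓ : A)) (V : ValuationSubring κ)
    (hVa : ∀ a : A, algebraMap A κ a ∈ V)
    (hVm : ∀ a ∈ IsLocalRing.maximalIdeal A, algebraMap A κ a ∈ V.nonunits) (B : Finset κ)
    (hG : Good V B) : RR ℓ k κ B := by
  refine ⟨muB_of_dvr hℓ V hVa hVm, ?_⟩
  intro R M _ _ _ _ _ _ x ε ι N₀ hC
  exact rig_of_dvr hVa hVm hℓ hC hG

theorem rr_fg {k κ : Type} [Field k] [CharZero k] [Field κ] [Algebra k κ] [IsAlgClosure k κ]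
    (hk : (⊤ : IntermediateField ℚ k).FG) {ℓ : ℕ} [Fact ℓ.Prime] (B : Finset κ) :
    RR ℓ k κ B := by
  classical
  haveI : IsAlgClosed κ := IsAlgClosure.isAlgClosed k
  haveI : Algebra.IsAlgebraic k κ := IsAlgClosure.isAlgebraic
  let T : Finset κ := B ∪ (B ×ˢ B).image (fun p => p.1 - p.2)
  obtain ⟨k₁, p, hp, j, hfin, hN, hT, hj⟩ := Pool.Agent.Y157.GT.b_embp k κ hk T ℓ
  haveI : CharZero k₁ := charZero_of_injective_algebraMap (algebraMap k k₁).injective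
  obtain ⟨A, hA, hdvr, hresf, hirr, hAm⟩ := Pool.Agent.Y157.GT.b_dvrp p k₁ j
  haveI := hdvr
  haveI := hresf
  have hpl : (p : ℕ) ≠ ℓ := by omega
  -- `ℓ` is a unit
  have hℓu : IsUnit ((ℓ : ℕ) : A) := by
    by_contra h
    have h1 : ((ℓ : ℕ) : A) ∈ IsLocalRing.maximalIdeal A := (IsLocalRing.mem_maximalIdeal _).2 h
    rw [hAm] at h1
    have h2 : j (((ℓ : ℕ) : A) : k₁) = ((ℓ : ℕ) : ℚ_[p]) := by
      have h3 : ((((ℓ : ℕ) : A)) : k₁) = ((ℓ : ℕ) : k₁) := by norm_cast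
      rw [h3, map_natCast]
    rw [h2] at h1
    have h3 : ‖((ℓ : ℕ) : ℚ_[p])‖ = 1 := by
      rw [Padic.norm_natCast_eq_one_iff]
      exact (Nat.coprime_primes hp.out Fact.out).2 hpl
    rw [h3] at h1
    exact lt_irrefl _ h1
  haveI : IsAlgClosure k₁ κ := ⟨inferInstance, inferInstance⟩
  obtain ⟨V, hVA, hVm⟩ := exists_V A k₁ κ
  have hmemV : ∀ a : k₁, ‖j a‖ ≤ 1 → (a : κ) ∈ V := fun a ha => hVA ⟨a, (hA a).2 ha⟩
  have hTin : ∀ a ∈ B, a ∈ T := fun a ha => Finset.mem_union_left _ ha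
  have hTd : ∀ a ∈ B, ∀ b ∈ B, a - b ∈ T := fun a ha b hb =>
    Finset.mem_union_right _ (Finset.mem_image.2 ⟨(a, b), Finset.mk_mem_product ha hb, rfl⟩)
  have hG : Good V B := by
    constructor
    · intro e he
      by_cases h0 : e = 0
      · rw [h0]; exact zero_mem _
      have h1 := hj ⟨e, hT e (hTin e he)⟩ (hTin e he)
        (fun h => h0 (congrArg Subtype.val h))
      exact hmemV ⟨e, hT e (hTin e he)⟩ h1.le
    · intro e he e' he' hne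
      have hd := hTd e he e' he'
      have h0 : e - e' ≠ 0 := sub_ne_zero.2 hne
      have h1 := hj ⟨e - e', hT _ hd⟩ hd (fun h => h0 (congrArg Subtype.val h))
      refine ⟨h0, hmemV ⟨e - e', hT _ hd⟩ h1.le, ?_⟩
      have h2 := hmemV (⟨e - e', hT _ hd⟩⁻¹ : k₁) (by rw [map_inv₀, norm_inv, h1, inv_one])
      exact h2
  letI : Algebra A κ := ((algebraMap k₁ κ).comp (algebraMap A k₁)).toAlgebra
  haveI hst : IsScalarTower A k₁ κ := IsScalarTower.of_algebraMap_eq (fun _ => rfl)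
  have hVa : ∀ a : A, algebraMap A κ a ∈ V := hVA
  have hVm' : ∀ a ∈ IsLocalRing.maximalIdeal A, algebraMap A κ a ∈ V.nonunits := hVm
  obtain ⟨h1, h2⟩ := rr_good (k := k₁) hℓu V hVa hVm' B hG
  exact ⟨muB_up k₁ h1, fun R M _ _ _ _ _ _ x ε ι N₀ hC => rig_up k₁ (h2 R M x ε ι N₀ hC)⟩

theorem rigU_of {k κ R Ω : Type} [Field k] [Field κ] [Algebra k κ]
    [IsAlgClosed κ] [CharZero κ] [Field R] [Field Ω] [Algebra κ R]
    [Algebra R Ω] [Algebra κ Ω] [IsScalarTower κ R Ω] {x : R} {ℓ : ℕ} [Fact ℓ.Prime]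
    {N0 : IntermediateField R Ω} {P : ValuationSubring Ω → Prop} [IsAlgClosure R Ω]
    {B : Finset κ} (hRR : RR ℓ k κ B) (h : Hyp ℓ κ x B P N0) : RigU ℓ k κ x P N0 := by
  intro N hN hNM
  obtain ⟨hNM', ε, ι, hC⟩ := gcovN h hN
  exact hRR.2 R (MF ℓ κ N) x ε ι _ hC

end Pool.Agent.H889.SY
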