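import Pool.Agent.H889.SY.Inst
import Pool.Agent.H889.LM.GeoB
import Pool.Graph.R_seed8.R925.Q.AfsN

/-!
# Sections with a nontrivial centraliser: abstract form
-/

set_option autoImplicit false
set_option linter.all false

open Polynomial FF

namespace Pool.Agent.H889.SY

open Pool.Agent.Y157.PS Pool.Agent.Y948.PS Pool.Agent.H889.PS Pool.Agent.H889.LM
open Pool.Agent.R925.Q (SecR Com exists_gal)

section absU

variable {k κ R Ω F N : Type} [Field k] [CharZero k]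
    [Field κ] [Algebra k κ] [IsAlgClosure k κ] [IsAlgClosed κ] [CharZero κ]
    [Field R] [Field F] [Field Ω] [Field N] [Algebra κ R] [Algebra R Ω] [Algebra κ Ω]
    [IsScalarTower κ R Ω] [IsAlgClosure R Ω] [Algebra F N]
    {B : Finset κ} {ℓ : ℕ} [Fact ℓ.Prime] {P : ValuationSubring Ω → Prop}
    {N0 : IntermediateField R Ω}

/-- a valuation ring of `N` over `κ`, ramified over `κ(x)` -/
structure RV (eqv : MFU ℓ κ P N0 ≃+* N) (W : ValuationSubring N) : Prop where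
  con : ∀ c : κ, eqv (algebraMap κ _ c) ∈ W
  ram : ∃ z : N, z ≠ 0 ∧ ∀ t : R, t ≠ 0 → ¬ IsU W (z / eqv (algebraMap R _ t))

/-- over `P` -/
def OV (eqv : MFU ℓ κ P N0 ≃+* N) (W : ValuationSubring N) : Prop :=
  ∀ W0 : ValuationSubring Ω, W0.comap (algebraMap (MFU ℓ κ P N0) Ω) =
    W.comap (eqv : MFU ℓ κ P N0 →+* N) → P W0

omit [CharZero k] [Field k] [Algebra k κ] [IsAlgClosure k κ] [Field F] [Algebra F N] in
theorem RV.down {eqv : MFU ℓ κ P N0 ≃+* N} {W : ValuationSubring N} (h : RV eqv W) :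
    RamV R κ (W.comap (eqv : MFU ℓ κ P N0 →+* N)) := by
  obtain ⟨a1, z, hz0, hzt⟩ := h
  refine ⟨a1, eqv.symm z, (map_ne_zero_iff _ eqv.symm.injective).2 hz0, fun t ht hu =>
    hzt t ht ?_⟩
  rw [comap_isU, map_div₀] at hu
  have h3 : ((eqv : MFU ℓ κ P N0 →+* N)) (eqv.symm z) = z := eqv.apply_symm_apply _
  rw [h3] at hu
  exact hu

omit [CharZero k] [Field k] [Algebra k κ] [IsAlgClosure k κ] [Field F] [Algebra F N] in
theorem RV.up {eqv : MFU ℓ κ P N0 ≃+* N} {W : ValuationSubring (MFU ℓ κ P N0)}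
    (h : RamV R κ W) : RV eqv (W.comap (eqv.symm : N →+* MFU ℓ κ P N0)) := by
  obtain ⟨a1, z, hz0, hzt⟩ := h
  refine ⟨fun c => ?_, eqv z, (map_ne_zero_iff _ eqv.injective).2 hz0, fun t ht hu => hzt t ht ?_⟩
  · change eqv.symm (eqv _) ∈ W
    rw [eqv.symm_apply_apply]
    exact a1 c
  · rw [← map_div₀, comap_isU] at hu
    have h3 : ((eqv.symm : N →+* MFU ℓ κ P N0)) (eqv (z / algebraMap R _ t)) =
      z / algebraMap R _ t := eqv.symm_apply_apply _
    rw [h3] at hu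
    exact hu

theorem geoSy {x' : R} (h : Hyp ℓ κ x' B P N0) (hRR : RR ℓ k κ B)
    (eqv : MFU ℓ κ P N0 ≃+* N) (x : F)
    (hx : eqv (algebraMap R (MFU ℓ κ P N0) x') = algebraMap F N x)
    (S : (κ ≃ₐ[k] κ) →* (N ≃ₐ[F] N))
    (hcont : ∀ z : N, ∃ E : IntermediateField k κ, FiniteDimensional k E ∧
      ∀ σ ∈ E.fixingSubgroup, S σ z = z)
    (hcompat : ∀ σ c, S σ (eqv (algebraMap κ (MFU ℓ κ P N0) c)) =
      eqv (algebraMap κ (MFU ℓ κ P N0) (σ c))) :
    (∀ (H : Subgroup (κ ≃ₐ[k] κ)), H.index ≠ 0 → ∀ γ : N ≃+* N, γ ≠ RingEquiv.refl N →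
      Com (fun c : κ => eqv (algebraMap κ _ c)) x S H γ →
      ∃ W : ValuationSubring N, RV eqv W ∧ OV eqv W ∧
        (∀ z ∈ W, ∃ c : κ, z - eqv (algebraMap κ _ c) ∈ W.nonunits) ∧
        (∀ (σ : κ ≃ₐ[k] κ) z, S σ z ∈ W ↔ z ∈ W) ∧
        (∀ (H' : Subgroup (κ ≃ₐ[k] κ)), H'.index ≠ 0 → ∀ γ' : N ≃+* N,
          Com (fun c : κ => eqv (algebraMap κ _ c)) x S H' γ' → ∀ z, γ' z ∈ W ↔ z ∈ W) ∧
        (∀ (H' : Subgroup (κ ≃ₐ[k] κ)), H'.index ≠ 0 → ∀ W' : ValuationSubring N, RV eqv W' →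
          (∀ σ ∈ H', ∀ z, S σ z ∈ W' ↔ z ∈ W') → W' = W)) ∧
    (∀ (H : Subgroup (κ ≃ₐ[k] κ)), H.index ≠ 0 → ∀ W : ValuationSubring N, RV eqv W →
      OV eqv W → (∀ σ ∈ H, ∀ z, S σ z ∈ W ↔ z ∈ W) →
      (∃ γ : N ≃+* N, γ ≠ RingEquiv.refl N ∧ ∃ H' : Subgroup (κ ≃ₐ[k] κ), H'.index ≠ 0 ∧
          Com (fun c : κ => eqv (algebraMap κ _ c)) x S H' γ) ∧
      ∀ γ : N ≃+* N, (∀ c : κ, γ (eqv (algebraMap κ _ c)) = eqv (algebraMap κ _ c)) →
        γ (algebraMap F N x) = algebraMap F N x → (∀ z, γ z ∈ W ↔ z ∈ W) →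
        ∃ H' : Subgroup (κ ≃ₐ[k] κ), H'.index ≠ 0 ∧
          Com (fun c : κ => eqv (algebraMap κ _ c)) x S H' γ) := by
  classical
  haveI : CharZero R := charZero_of_injective_algebraMap (algebraMap κ R).injective
  haveI : IsAlgClosed Ω := IsAlgClosure.isAlgClosed R
  have hRig := rigU_of hRR h
  have hMu := hRR.1
  let M := MFU ℓ κ P N0
  let s' : (κ ≃ₐ[k] κ) →* RingAut M := conjSec eqv S
  have hs' : ∀ σ z, eqv (s' σ z) = S σ (eqv z) := fun σ z => conjSec_apply eqv S σ z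
  have hs'2 : ∀ σ z, eqv.symm (S σ z) = s' σ (eqv.symm z) := by
    intro σ z
    apply eqv.injective
    rw [hs', eqv.apply_symm_apply, eqv.apply_symm_apply]
  have hconst : ∀ σ c, s' σ (algebraMap κ M c) = algebraMap κ M (σ c) := by
    intro σ c
    apply eqv.injective
    rw [hs', hcompat]
  have hbase : ∀ σ (z : F) (w : M), eqv w = algebraMap F N z → s' σ w = w := by
    intro σ z w hw
    apply eqv.injective
    rw [hs', hw]
    exact (S σ).commutes z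
  have hSec : GSec k κ R M x' s' := by
    refine ⟨hconst, fun σ => hbase σ x _ hx, fun z => ?_⟩
    obtain ⟨E, hE, hE'⟩ := hcont (eqv z)
    refine ⟨E, hE, fun σ hσ => eqv.injective ?_⟩
    rw [hs', hE' σ hσ]
  have hgal : ∀ γ : N ≃+* N, ∀ H : Subgroup (κ ≃ₐ[k] κ),
      Com (fun c : κ => eqv (algebraMap κ M c)) x S H γ →
      ∃ g : M ≃ₐ[R] M, (∀ z, eqv (g z) = γ (eqv z)) ∧ ∀ σ ∈ H, ∀ z, g (s' σ z) = s' σ (g z) := by
    intro γ H hγ
    obtain ⟨g, hg⟩ := exists_gal h.rat eqv hx γ hγ.con hγ.fix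
    refine ⟨g, hg, fun σ hσ z => ?_⟩
    apply eqv.injective
    rw [hg, hs', hs', hg, hγ.com σ hσ]
  have hne : ∀ (γ : N ≃+* N) (g : M ≃ₐ[R] M), (∀ z, eqv (g z) = γ (eqv z)) →
      γ ≠ RingEquiv.refl N → g ≠ 1 := by
    intro γ g hg h1 h2
    apply h1
    ext z
    have h3 := hg (eqv.symm z)
    rw [h2, eqv.apply_symm_apply] at h3
    rw [← h3]
    exact eqv.apply_symm_apply z
  have hdu : ∀ W : ValuationSubring M,
      (W.comap (eqv.symm : N →+* M)).comap (eqv : M →+* N) = W := by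
    intro W
    ext z
    change eqv.symm (eqv z) ∈ W ↔ z ∈ W
    rw [eqv.symm_apply_apply]
  have hud : ∀ W : ValuationSubring N,
      (W.comap (eqv : M →+* N)).comap (eqv.symm : N →+* M) = W := by
    intro W
    ext z
    change eqv (eqv.symm z) ∈ W ↔ z ∈ W
    rw [eqv.apply_symm_apply]
  refine ⟨?_, ?_⟩
  · intro H hH γ hγ1 hγ
    obtain ⟨g, hg, hgc⟩ := hgal γ H hγ
    have hgC : g ∈ Cen R s' := ⟨H, hH, hgc⟩
    obtain ⟨W, hWr, hWP, hWs, hWc, -, hWu⟩ := symU h hRig hMu hSec (fun hb =>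
      hne γ g hg hγ1 ((Subgroup.eq_bot_iff_forall _).1 hb g hgC))
    refine ⟨W.comap (eqv.symm : N →+* M), RV.up hWr, ?_, ?_, ?_, ?_, ?_⟩
    · intro W0 hW0
      rw [hdu] at hW0
      exact hWP W0 hW0
    · intro z hz
      have hz' : eqv.symm z ∈ W := hz
      obtain ⟨W', hW'⟩ := a_extv M Ω W
      have hm : ∀ z : M, (z : Ω) ∈ W' ↔ z ∈ W := by
        intro z
        rw [← hW']
        rfl
      have htop : W' ≠ ⊤ := by
        rintro rfl
        apply hWr.ne_top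
        ext y
        exact ⟨fun _ => trivial, fun _ => (hm y).1 trivial⟩
      obtain ⟨c, hc⟩ := Pool.Agent.Y948.PS.res h.rat W'
        (fun c => (hm (algebraMap κ M c)).2 (hWr.con c)) htop ((hm _).2 hz')
      refine ⟨c, ?_⟩
      rw [comap_non, map_sub, eqv.symm_apply_apply]
      have h5 : W'.comap (algebraMap M Ω) = W := hW'
      rw [← h5, non_incl]
      exact (ValuationSubring.mem_nonunits_iff _).2 hc
    · intro σ z
      change eqv.symm (S σ z) ∈ W ↔ eqv.symm z ∈ W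
      rw [hs'2]
      exact hWs σ _
    · intro H' hH' γ' hγ' z
      obtain ⟨g', hg', hgc'⟩ := hgal γ' H' hγ'
      change eqv.symm (γ' z) ∈ W ↔ eqv.symm z ∈ W
      have h1 : eqv.symm (γ' z) = g' (eqv.symm z) := by
        apply eqv.injective
        rw [hg', eqv.apply_symm_apply, eqv.apply_symm_apply]
      rw [h1]
      exact hWc g' ⟨H', hH', hgc'⟩ _
    · intro H' hH' W' hW' hsW'
      have h1 := hWu H' hH' (W'.comap (eqv : M →+* N)) hW'.down (fun σ hσ z => by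
        change eqv (s' σ z) ∈ W' ↔ eqv z ∈ W'
        rw [hs']
        exact hsW' σ hσ _)
      rw [← hud W', h1]
  · intro H hH W hW hWP hsW
    have hsW' : ∀ σ ∈ H, ∀ z, s' σ z ∈ W.comap (eqv : M →+* N) ↔
        z ∈ W.comap (eqv : M →+* N) := by
      intro σ hσ z
      change eqv (s' σ z) ∈ W ↔ eqv z ∈ W
      rw [hs']
      exact hsW σ hσ _
    have hcomg : ∀ (g : M ≃ₐ[R] M) (H' : Subgroup (κ ≃ₐ[k] κ)) (γ : N ≃+* N),
        (∀ z, γ z = eqv (g (eqv.symm z))) → (∀ σ ∈ H', ∀ z, g (s' σ z) = s' σ (g z)) →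
        Com (fun c : κ => eqv (algebraMap κ M c)) x S H' γ := by
      intro g H' γ hγ hgc
      refine ⟨?_, ?_, ?_⟩
      · intro c
        change γ (eqv (algebraMap κ M c)) = eqv (algebraMap κ M c)
        rw [hγ, eqv.symm_apply_apply, IsScalarTower.algebraMap_apply κ R M, g.commutes]
      · rw [hγ, ← hx, eqv.symm_apply_apply, g.commutes]
      · intro σ hσ z
        rw [hγ, hγ, hs'2, hgc σ hσ, hs']
    refine ⟨?_, ?_⟩
    · obtain ⟨g, ⟨H', hH', hgc⟩, hg1, -⟩ := cuspU h hSec H hH hW.down hWP hsW'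
      let γ : N ≃+* N := (eqv.symm.trans (g : M ≃+* M)).trans eqv
      have hγ : ∀ z, γ z = eqv (g (eqv.symm z)) := fun z => rfl
      refine ⟨γ, ?_, H', hH', hcomg g H' γ hγ hgc⟩
      intro he
      apply hg1
      ext z
      change ((g z : M) : Ω) = (z : Ω)
      congr 1
      have h2 : γ (eqv z) = eqv z := by rw [he]; rfl
      rw [hγ, eqv.symm_apply_apply] at h2
      exact eqv.injective h2
    · intro γ hγc hγx hγW
      obtain ⟨g, hg⟩ := exists_gal h.rat eqv hx γ hγc hγx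
      obtain ⟨H', hH', hgc⟩ : g ∈ Cen R s' := by
        refine cenU h hSec H hH hW.down.con hW.down.ne_top hWP hsW' fun z => ?_
        change eqv (g z) ∈ W ↔ eqv z ∈ W
        rw [hg]
        exact hγW _
      refine ⟨H', hH', hcomg g H' γ (fun z => ?_) hgc⟩
      rw [hg, eqv.apply_symm_apply]

end absU

end Pool.Agent.H889.SY
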