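import Pool.Agent.H889.SY.Tame

/-! The centraliser of a section. -/

set_option autoImplicit false
set_option linter.all false

open Polynomial FF

namespace Pool.Agent.H889.SY

open Pool.Agent.Y157.PS Pool.Agent.H889.PS
open Pool.Agent.Y31.PS (stab_triv pl pl_ord fixes_iff)
open Pool.Agent.R925.Q (SecR Lift)

section cen

variable {k κ R M : Type} [Field k] [Field κ] [Algebra k κ] [Field R] [Field M] [Algebra κ R]
  [Algebra R M] [Algebra κ M] [IsScalarTower κ R M]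

/-- the elements of `Gal(M/R)` which commute with the image of some subgroup of finite index -/
def Cen (R : Type) {k κ M : Type} [Field k] [Field κ] [Algebra k κ] [Field R] [Field M]
    [Algebra R M] (s : (κ ≃ₐ[k] κ) →* RingAut M) : Subgroup (M ≃ₐ[R] M) where
  carrier := {γ | ∃ U : Subgroup (κ ≃ₐ[k] κ), U.index ≠ 0 ∧ ∀ σ ∈ U, ∀ z, γ (s σ z) = s σ (γ z)}
  one_mem' := ⟨⊤, by rw [Subgroup.index_top]; exact one_ne_zero, fun σ _ z => rfl⟩
  mul_mem' := by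
    rintro γ γ' ⟨U, hU, h⟩ ⟨U', hU', h'⟩
    refine ⟨U ⊓ U', Subgroup.index_inf_ne_zero hU hU', fun σ hσ z => ?_⟩
    change γ (γ' (s σ z)) = s σ (γ (γ' z))
    rw [h' σ hσ.2, h σ hσ.1]
  inv_mem' := by
    rintro γ ⟨U, hU, h⟩
    refine ⟨U, hU, fun σ hσ z => ?_⟩
    apply γ.injective
    have h1 : ∀ w, γ (γ⁻¹ w) = w := fun w => γ.apply_symm_apply w
    rw [h σ hσ, h1, h1]

theorem mem_Cen {s : (κ ≃ₐ[k] κ) →* RingAut M} {γ : M ≃ₐ[R] M} : γ ∈ Cen R s ↔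
    ∃ U : Subgroup (κ ≃ₐ[k] κ), U.index ≠ 0 ∧ ∀ σ ∈ U, ∀ z, γ (s σ z) = s σ (γ z) := Iff.rfl

theorem s_mul (s : (κ ≃ₐ[k] κ) →* RingAut M) (σ σ' : κ ≃ₐ[k] κ) (z : M) :
    s (σ * σ') z = s σ (s σ' z) := by
  rw [map_mul]; rfl

theorem s_inv (s : (κ ≃ₐ[k] κ) →* RingAut M) (σ : κ ≃ₐ[k] κ) (z : M) :
    s σ (s σ⁻¹ z) = z := by
  rw [← s_mul, mul_inv_cancel, map_one]; rfl

theorem s_inv' (s : (κ ≃ₐ[k] κ) →* RingAut M) (σ : κ ≃ₐ[k] κ) (z : M) :
    s σ⁻¹ (s σ z) = z := by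
  rw [← s_mul, inv_mul_cancel, map_one]; rfl

/-- the image of the section normalises the centraliser -/
theorem cen_conj {x : R} (hx : RatF κ x) {s : (κ ≃ₐ[k] κ) →* RingAut M} (hs : SecR k κ R M x s)
    (σ : κ ≃ₐ[k] κ) {γ : M ≃ₐ[R] M} (hγ : γ ∈ Cen R s) :
    ∃ η ∈ Cen R s, ∀ z, s σ (η z) = γ (s σ z) := by
  obtain ⟨U, hU, h⟩ := hγ
  obtain ⟨η, hη⟩ := conjR hx (s σ) (σ : κ ≃+* κ) (hs.const σ) (hs.fixx σ) γ
  have hη' : ∀ z, s σ (η z) = γ (s σ z) := by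
    intro z
    rw [hη, RingEquiv.apply_symm_apply]
  refine ⟨η, ⟨U.normalCore, ?_, ?_⟩, hη'⟩
  · haveI : U.FiniteIndex := ⟨hU⟩
    exact (Subgroup.finiteIndex_normalCore U).index_ne_zero
  · intro τ hτ z
    have h2 : σ * τ * σ⁻¹ ∈ U :=
      Subgroup.normalCore_le U ((Subgroup.normalCore_normal U).conj_mem τ hτ σ)
    apply (s σ).injective
    rw [hη', ← s_mul]
    have h3 : σ * τ = (σ * τ * σ⁻¹) * σ := by group
    rw [h3, s_mul, h _ h2, ← hη', ← s_mul, ← s_mul, ← h3]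

end cen

section main

variable {k κ R M : Type} [Field k] [CharZero k]
    [Field κ] [Algebra k κ] [IsAlgClosure k κ]
    [Field R] [Field M] [Algebra κ R] [Algebra R M] [Algebra κ M] [IsScalarTower κ R M]
    {ℓ : ℕ} [Fact ℓ.Prime] {x : R} {B : Finset κ} {ε : κ → ℕ} {ι : ℕ}
    {N₀ : IntermediateField R M}

/-- elements of the centraliser are determined by their action on `N₀` -/
theorem cen_triv (hR : RigN k κ x N₀) {s : (κ ≃ₐ[k] κ) →* RingAut M} (hs : SecR k κ R M x s)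
    {γ : M ≃ₐ[R] M} (hγ : γ ∈ Cen R s) (h : ∀ z ∈ N₀, γ z = z) : γ = 1 := by
  obtain ⟨U, hU, hc⟩ := hγ
  obtain ⟨φ₀, hφ, h1⟩ := hR U hU
  exact h1 (s φ₀) ⟨fun c => hs.const _ c, hs.fixx _⟩ γ (hc φ₀ hφ) h

/-- the centraliser is a finite `ℓ`-group -/
theorem cen_fin (hR : RigN k κ x N₀) (hC : GCov ℓ κ R M x B ε ι N₀)
    {s : (κ ≃ₐ[k] κ) →* RingAut M} (hs : SecR k κ R M x s) :
    Finite (Cen R s) ∧ IsPGroup ℓ (Cen R s) := by
  haveI := hC.gal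
  haveI := hC.lev.fin
  haveI := hC.lev.gal
  haveI : Normal R N₀ := hC.lev.gal.to_normal
  obtain ⟨m, hm⟩ := hC.lev.card
  constructor
  · have hinj : Function.Injective (fun γ : Cen R s => AlgEquiv.restrictNormalHom N₀ γ.1) := by
      intro γ γ' h
      have h1 : AlgEquiv.restrictNormalHom N₀ (γ.1⁻¹ * γ'.1) = 1 := by
        rw [map_mul, map_inv]
        exact inv_mul_eq_one.2 h
      have h2 : γ.1⁻¹ * γ'.1 = 1 := by
        refine cen_triv hR hs (mul_mem (inv_mem γ.2) γ'.2) fun z hz => ?_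
        have h3 := AlgEquiv.restrictNormal_commutes (γ.1⁻¹ * γ'.1) N₀ ⟨z, hz⟩
        have h4 : (γ.1⁻¹ * γ'.1).restrictNormal N₀ = 1 := h1
        rw [h4] at h3
        exact h3.symm
      exact Subtype.ext (inv_mul_eq_one.1 h2)
    exact Finite.of_injective _ hinj
  · rintro ⟨γ, hγ⟩
    refine ⟨m, Subtype.ext ?_⟩
    change γ ^ (ℓ ^ m) = 1
    exact cen_triv hR hs (pow_mem hγ _) fun z hz => lev_pow hC.lev hm γ z hz

omit [CharZero k] in
/-- elements of the stabiliser of a place whose tame character is invariant commute with the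
semilinear automorphisms which fix the place -/
theorem com_of_chi [IsAlgClosed κ] [CharZero κ] (hx : RatF κ x) [Algebra.IsAlgebraic R M]
    [Normal R M] (hN : Lev ℓ N₀) {s : (κ ≃ₐ[k] κ) →* RingAut M} (hs : SecR k κ R M x s)
    {W : Place κ M} {ρ : M} (hρ : ρ ∈ N₀) (hρ1 : W.ord ρ = 1) {σ : κ ≃ₐ[k] κ}
    (hσ : Fixes W (s σ)) {γ : M ≃ₐ[R] M} (hγ : Fixes W γ) {ζ : κ}
    (hζ : γ ρ / ρ - algebraMap κ M ζ ∈ W.O.nonunits) (hσζ : σ ζ = ζ) (z : M) :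
    γ (s σ z) = s σ (γ z) := by
  have hρ0 := ne_of_ord hρ1
  obtain ⟨η, hη⟩ := conjR hx (s σ) (σ : κ ≃+* κ) (hs.const σ) (hs.fixx σ) γ
  have hη' : ∀ z, s σ (η z) = γ (s σ z) := by
    intro z
    rw [hη, RingEquiv.apply_symm_apply]
  have hηW : Fixes W η := by
    intro z
    have h1 : W.ord (s σ (η z)) = W.ord (η z) := hσ _
    rw [← h1, hη', hγ, hσ]
  have h1 : η ρ / ρ - algebraMap κ M ζ ∈ W.O.nonunits := by
    refine chi_semi hx hγ (τ₀ := (σ : κ ≃+* κ)) (hs.const σ) hσ hη' hρ0 ?_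
    change γ ρ / ρ - algebraMap κ M (σ ζ) ∈ _
    rw [hσζ]
    exact hζ
  obtain ⟨ζ', hζ'0, hζ'⟩ := exists_chi hx hγ.inv hρ0
  have h2 := chi_mul hx hγ.inv hγ hρ0 hζ' hζ
  rw [inv_mul_cancel] at h2
  have h3 : ζ' * ζ = 1 := cong_unique h2 (chi_one (R := R) hρ0)
  have h4 := chi_mul hx hγ.inv hηW hρ0 hζ' h1
  rw [h3] at h4
  have h5 : γ⁻¹ * η = 1 := chi_inj hx hN (hγ.inv.mul hηW) hρ hρ1 h4
  have h6 : η = γ := (inv_mul_eq_one.1 h5).symm
  rw [← hη', h6]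

omit [CharZero k] in
/-- the tame character of an element which commutes with a semilinear automorphism -/
theorem chi_of_com [IsAlgClosed κ] [CharZero κ] (hx : RatF κ x) [Algebra.IsAlgebraic R M]
    {s : (κ ≃ₐ[k] κ) →* RingAut M} (hs : SecR k κ R M x s)
    {W : Place κ M} {ρ : M} (hρ0 : ρ ≠ 0) {σ : κ ≃ₐ[k] κ}
    (hσ : Fixes W (s σ)) {γ : M ≃ₐ[R] M} (hγ : Fixes W γ) {ζ : κ}
    (hζ : γ ρ / ρ - algebraMap κ M ζ ∈ W.O.nonunits) (hc : ∀ z, γ (s σ z) = s σ (γ z)) :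
    σ ζ = ζ := by
  have h1 := chi_semi hx hγ (τ := s σ) (τ₀ := (σ : κ ≃+* κ)) (hs.const σ) hσ (η := γ)
    (fun z => (hc z).symm) hρ0 (c := σ.symm ζ) (by
      change γ ρ / ρ - algebraMap κ M (σ (σ.symm ζ)) ∈ _
      rw [AlgEquiv.apply_symm_apply]
      exact hζ)
  have h2 := cong_unique h1 hζ
  rw [AlgEquiv.symm_apply_eq] at h2
  exact h2.symm

omit [CharZero k] in
theorem stab_index [IsAlgClosed κ] [CharZero κ] {m : ℕ} {ζ : κ} (hζ1 : ζ ^ (ℓ ^ m) = 1) :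
    (MulAction.stabilizer (κ ≃ₐ[k] κ) ζ).index ≠ 0 := by
  classical
  have hp := (Fact.out : ℓ.Prime).pos
  rw [MulAction.index_stabilizer]
  have hfin : (MulAction.orbit (κ ≃ₐ[k] κ) ζ).Finite := by
    refine ((X ^ (ℓ ^ m) - C (1 : κ)).roots.toFinset.finite_toSet).subset ?_
    rintro _ ⟨σ, rfl⟩
    show σ ζ ∈ _
    rw [Finset.mem_coe, Multiset.mem_toFinset,
      mem_roots (X_pow_sub_C_ne_zero (pow_pos hp m) 1)]
    simp only [IsRoot.def, eval_sub, eval_pow, eval_X, eval_C]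
    rw [← map_pow, hζ1, map_one, sub_self]
  haveI : Finite (MulAction.orbit (κ ≃ₐ[k] κ) ζ) := hfin.to_subtype
  haveI : Nonempty (MulAction.orbit (κ ≃ₐ[k] κ) ζ) := ⟨⟨ζ, MulAction.mem_orbit_self ζ⟩⟩
  rw [Set.ncard]
  exact (Nat.card_pos (α := MulAction.orbit (κ ≃ₐ[k] κ) ζ)).ne'

/-- an element of the stabiliser of a place commutes with an open subgroup of the image of a section
which fixes this place -/
theorem cen_of_fixes' [IsAlgClosed κ] [CharZero κ] (hx : RatF κ x) [Algebra.IsAlgebraic R M]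
    [Normal R M] (hN : Lev ℓ N₀) {s : (κ ≃ₐ[k] κ) →* RingAut M} (hs : SecR k κ R M x s)
    (U : Subgroup (κ ≃ₐ[k] κ)) (hU : U.index ≠ 0) {W : Place κ M} {ρ : M} (hρ : ρ ∈ N₀)
    (hρ1 : W.ord ρ = 1) (hfix : ∀ σ ∈ U, Fixes W (s σ)) {γ : M ≃ₐ[R] M}
    (hγ : Fixes W γ) : γ ∈ Cen R s := by
  obtain ⟨m, hm⟩ := hN.card
  obtain ⟨ζ, hζ0, hζ⟩ := exists_chi hx hγ (ne_of_ord hρ1)
  have hζ1 : ζ ^ (ℓ ^ m) = 1 := chi_root hx hN hm hγ hρ (ne_of_ord hρ1) hζ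
  exact ⟨U ⊓ MulAction.stabilizer (κ ≃ₐ[k] κ) ζ, Subgroup.index_inf_ne_zero hU (stab_index hζ1),
    fun σ hσ z => com_of_chi hx hN hs hρ hρ1 (hfix σ hσ.1) hγ hζ hσ.2 z⟩

theorem cen_of_fixes (hC : GCov ℓ κ R M x B ε ι N₀)
    {s : (κ ≃ₐ[k] κ) →* RingAut M} (hs : SecR k κ R M x s) (U : Subgroup (κ ≃ₐ[k] κ))
    (hU : U.index ≠ 0) (W : Place κ M) (hfix : ∀ σ ∈ U, Fixes W (s σ)) {γ : M ≃ₐ[R] M}
    (hγ : Fixes W γ) : γ ∈ Cen R s := by
  haveI : IsAlgClosed κ := IsAlgClosure.isAlgClosed k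
  haveI : CharZero κ := charZero_of_injective_algebraMap (algebraMap k κ).injective
  haveI := hC.gal
  obtain ⟨-, ρ, hρ, hρ1⟩ := hC.loc' W
  exact cen_of_fixes' hC.rat hC.lev hs U hU hρ hρ1 hfix hγ

/-- **sections with a nontrivial centraliser** -/
theorem afs (hR : RigN k κ x N₀) (hC : GCov ℓ κ R M x B ε ι N₀)
    {s : (κ ≃ₐ[k] κ) →* RingAut M} (hs : SecR k κ R M x s) (h1 : Cen R s ≠ ⊥) :
    ∃ W : Place κ M, IsRam ε ι x W ∧ (∀ σ, Fixes W (s σ)) ∧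
      (∀ γ : M ≃ₐ[R] M, γ ∈ Cen R s ↔ Fixes W γ) ∧
      ∀ γ ∈ Cen R s, γ ≠ 1 → ∀ W' : Place κ M, Fixes W' γ → W' = W := by
  classical
  haveI : IsAlgClosed κ := IsAlgClosure.isAlgClosed k
  haveI : CharZero κ := charZero_of_injective_algebraMap (algebraMap k κ).injective
  obtain ⟨hfin, hpg⟩ := cen_fin hR hC hs
  haveI : Nontrivial (Cen R s) := (Subgroup.nontrivial_iff_ne_bot _).2 h1
  haveI : Nontrivial (Subgroup.center (Cen R s)) := hpg.center_nontrivial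
  obtain ⟨⟨g, hg⟩, hg1⟩ := exists_ne (1 : Subgroup.center (Cen R s))
  obtain ⟨m, hm⟩ := hpg g
  obtain ⟨n, hn1, hn2⟩ := exists_order m g hm (fun h => hg1 (Subtype.ext h))
  obtain ⟨c, hc⟩ : ∃ c, c = g ^ (ℓ ^ n) := ⟨_, rfl⟩
  rw [← hc] at hn1 hn2
  have hcen : ∀ γ ∈ Cen R s, c.1 * γ = γ * c.1 := by
    intro γ hγ
    have h2 := Subgroup.mem_center_iff.1 (pow_mem hg (ℓ ^ n)) ⟨γ, hγ⟩
    rw [← hc] at h2
    exact (congrArg Subtype.val h2).symm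
  have hcℓ : c.1 ^ ℓ = 1 := congrArg Subtype.val hn1
  have hc1 : c.1 ≠ 1 := fun h => hn2 (Subtype.ext h)
  obtain ⟨W, hW⟩ := exf hC c.1 hcℓ hc1
  -- all elements of the centraliser fix `W`
  have hZ : ∀ γ ∈ Cen R s, Fixes W γ := by
    intro γ hγ
    have h2 : Fixes (pl W γ) c.1 := by
      intro z
      rw [pl_ord, pl_ord]
      have h3 : γ (c.1 z) = c.1 (γ z) := by
        have h4 := congrArg (fun g : M ≃ₐ[R] M => g z) (hcen γ hγ)
        exact h4.symm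
      rw [h3, hW]
    exact (fixes_iff W γ).2 (unq hC c.1 hcℓ hc1 (pl W γ) W h2 hW)
  -- the image of the section fixes `W`
  have hfix : ∀ σ : κ ≃ₐ[k] κ, Fixes W (s σ) := by
    intro σ
    obtain ⟨η, hηC, hη⟩ := cen_conj hC.rat hs σ c.2
    have hηn : ∀ n : ℕ, ∀ z, s σ ((η ^ n) z) = (c.1 ^ n) (s σ z) := by
      intro n
      induction n with
      | zero => intro z; rfl
      | succ n ih =>
        intro z
        rw [pow_succ, pow_succ]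
        change s σ ((η ^ n) (η z)) = (c.1 ^ n) (c.1 (s σ z))
        rw [ih, hη]
    have hηℓ : η ^ ℓ = 1 := by
      ext z
      apply (s σ).injective
      rw [hηn, hcℓ]
      rfl
    have hη1 : η ≠ 1 := by
      intro h
      apply hc1
      ext z
      have h4 := hη (s σ⁻¹ z)
      rw [h, s_inv] at h4
      change s σ (s σ⁻¹ z) = _ at h4
      rw [s_inv] at h4
      exact h4.symm
    let Wσ := Place.comapEquiv W (s σ) (σ : κ ≃+* κ) (hs.const σ)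
    have h5 : Wσ = W := by
      refine unq hC η hηℓ hη1 Wσ W ?_ (hZ η hηC)
      intro z
      change W.ord (s σ (η z)) = W.ord (s σ z)
      rw [hη, hW]
    intro z
    change Wσ.ord z = W.ord z
    rw [h5]
  have hram : IsRam ε ι x W := by
    obtain ⟨h1, -⟩ := above_M hC hc1 hW
    have hpos : ∀ n : ℕ, (0 : ℤ) < (ℓ : ℤ) ^ n := fun n => by
      have := (Fact.out : ℓ.Prime).pos
      positivity
    rcases h1 with ⟨e, -, he, h1⟩ | ⟨h1, h2⟩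
    · exact Or.inl ⟨e, h1, by rw [he]; exact hpos _⟩
    · refine Or.inr ⟨h2, ?_⟩
      rw [h1]
      have := hpos ι
      omega
  refine ⟨W, hram, hfix, fun γ => ⟨hZ γ, fun hγ => ?_⟩, ?_⟩
  · exact cen_of_fixes hC hs ⊤ (by rw [Subgroup.index_top]; exact one_ne_zero) W
      (fun σ _ => hfix σ) hγ
  · intro γ hγ hγ1 W' hW'
    obtain ⟨m', hm'⟩ := hpg ⟨γ, hγ⟩
    obtain ⟨n', h2, h3⟩ := exists_order m' γ (congrArg Subtype.val hm') hγ1
    exact unq hC (γ ^ (ℓ ^ n')) h2 h3 W' W (Fixes.pow hW' _) (Fixes.pow (hZ γ hγ) _)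

/-- sections at a ramified place have a nontrivial centraliser -/
theorem cusp (hC : GCov ℓ κ R M x B ε ι N₀)
    {s : (κ ≃ₐ[k] κ) →* RingAut M} (hs : SecR k κ R M x s) (U : Subgroup (κ ≃ₐ[k] κ))
    (hU : U.index ≠ 0) (W : Place κ M) (hram : IsRam ε ι x W) (hfix : ∀ σ ∈ U, Fixes W (s σ)) :
    ∃ γ ∈ Cen R s, γ ≠ 1 ∧ Fixes W γ := by
  haveI : IsAlgClosed κ := IsAlgClosure.isAlgClosed k
  haveI : CharZero κ := charZero_of_injective_algebraMap (algebraMap k κ).injective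
  obtain ⟨c, -, hc1, hc⟩ := ram_stab hC hram
  exact ⟨c, cen_of_fixes hC hs U hU W hfix hc, hc1, hc⟩

end main

end Pool.Agent.H889.SY
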