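import Pool.Agent.H889.SY.Glue

/-!
# The stabilisers of cusps are torsion free
-/

set_option autoImplicit false
set_option linter.all false

open Polynomial FF

namespace Pool.Agent.H889.SY

open Pool.Agent.Y157.PS Pool.Agent.Y948.PS Pool.Agent.H889.PS Pool.Agent.H889.LM
open Pool.Agent.Y31.PS (pl pl_ord fixes_iff)

section kum

variable {κ R Ω : Type} [Field κ] [IsAlgClosed κ] [CharZero κ] [Field R] [Field Ω] [Algebra κ R]
  [Algebra R Ω] [Algebra κ Ω] [IsScalarTower κ R Ω] {x : R} {ℓ : ℕ} [Fact ℓ.Prime]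
  {N0 : IntermediateField R Ω} {P : ValuationSubring Ω → Prop} [IsAlgClosure R Ω]
  {k : Type} [Field k] [Algebra k κ] {B : Finset κ}

/-- roots of functions whose divisor over `P` is divisible by `ℓ` -/
theorem rootU (h : Hyp ℓ κ x B P N0) (z : Ω) (hz : MemU ℓ κ P N0 z)
    (hdiv : ∀ W : ValuationSubring Ω, (∀ c : κ, algebraMap κ Ω c ∈ W) → W ≠ ⊤ → P W →
      ∀ π, Unf N0 W π → ∃ m : ℤ, W.valuation z = W.valuation π ^ ((ℓ : ℤ) * m)) :
    ∃ y : Ω, MemU ℓ κ P N0 y ∧ y ^ ℓ = z := by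
  haveI : CharZero R := charZero_of_injective_algebraMap (algebraMap κ R).injective
  haveI : IsAlgClosed Ω := IsAlgClosure.isAlgClosed R
  have hℓ0 : ℓ ≠ 0 := (Fact.out : ℓ.Prime).ne_zero
  have hμ : ∀ ζ : Ω, ζ ^ ℓ = 1 → ∃ c : R, algebraMap R Ω c = ζ := fun ζ => muR (κ := κ) hℓ0 ζ
  obtain ⟨y, hy⟩ := IsAlgClosed.exists_pow_nat_eq z (Nat.pos_of_ne_zero hℓ0)
  refine ⟨y, ⟨Pro.root hμ (by rw [hy]; exact hz.1), fun W hκ hW hPW => ?_⟩, hy⟩
  obtain ⟨π, hπ⟩ := HU_lev (κ := κ) h.rat h.lev W hκ hW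
  obtain ⟨m, hm⟩ := hdiv W hκ hW hPW π hπ
  exact Apx.root hπ (hres h.rat _ W hκ hW) hℓ0 (vl hℓ0 W hκ) y
    (by rw [hy]; exact hz.2 W hκ hW hPW) m (by rw [hy]; exact hm)

/-- a uniformiser of a level at a cusp with an `ℓ`-th root in `M` -/
theorem kum (h : Hyp ℓ κ x B P N0) {N : IntermediateField R Ω} (hN : SL ℓ k κ x P N0 N)
    (W0 : ValuationSubring Ω) (hκ : ∀ c : κ, algebraMap κ Ω c ∈ W0) (htop : W0 ≠ ⊤)
    (hP0 : ¬ P W0) (g : N ≃ₐ[R] N) (hg : ∃ y : N, ¬ (((g y : N) : Ω) ∈ W0 ↔ (y : Ω) ∈ W0)) :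
    ∃ z : Ω, Unf N W0 z ∧ ∃ y : Ω, MemU ℓ κ P N0 y ∧ y ^ ℓ = z := by
  classical
  haveI : CharZero R := charZero_of_injective_algebraMap (algebraMap κ R).injective
  haveI : IsAlgClosed Ω := IsAlgClosure.isAlgClosed R
  haveI := hN.lev.fin
  haveI := hN.lev.gal
  haveI : Normal R Ω := IsAlgClosure.normal R Ω
  haveI : Normal N Ω := Normal.tower_top_of_normal R N Ω
  haveI : IsFF κ N := h.rat.isFF
  obtain ⟨π, hπ⟩ := HU_lev (κ := κ) h.rat hN.lev W0 hκ htop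
  obtain ⟨w, hw, hword⟩ := place (κ := κ) le_rfl W0 hκ hπ (fun z hz => Apx.of_mem hz)
  have hmemw : ∀ y : N, y ∈ w.O ↔ (y : Ω) ∈ W0 := by
    intro y
    rw [hw]
    rfl
  have hne : pl w g ≠ w := by
    intro he
    obtain ⟨y, hy⟩ := hg
    apply hy
    rw [← hmemw, ← hmemw]
    have h1 := (fixes_iff w g).2 he
    exact fix_O (W := w) (τ := (g : N ≃+* N)) h1 y
  obtain ⟨z, hz0, hz⟩ := a_t1 ℓ κ R N x h.rat hN.lev.card
    (Finsupp.single w (1 : ℤ) - Finsupp.single (pl w g) (1 : ℤ)) (by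
      rw [Finsupp.sum_sub_index (fun _ _ _ => rfl), Finsupp.sum_single_index rfl,
        Finsupp.sum_single_index rfl, sub_self]
      exact dvd_zero _)
  have hz1 := hz w
  rw [Finsupp.sub_apply, Finsupp.single_apply, Finsupp.single_apply, if_pos rfl, if_neg hne,
    sub_zero] at hz1
  obtain ⟨a, ha⟩ := hz1
  obtain ⟨π', hπ'⟩ : ∃ π' : N, π' = ⟨π, hπ.mem⟩ := ⟨_, rfl⟩
  have hπΩ : (π' : Ω) = π := by rw [hπ']
  have hπ0 : π' ≠ 0 := by
    intro h0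
    apply hπ.ne
    rw [← hπΩ, h0]
    rfl
  have hwπ : w.ord π' = 1 := hword π' 1 (by rw [hπΩ, zpow_one])
  obtain ⟨z', hz'⟩ : ∃ z' : N, z' = z / π' ^ ((ℓ : ℤ) * a) := ⟨_, rfl⟩
  have hπz : π' ^ ((ℓ : ℤ) * a) ≠ 0 := zpow_ne_zero _ hπ0
  have hz'0 : z' ≠ 0 := by rw [hz']; exact div_ne_zero hz0 hπz
  have hwz' : w.ord z' = 1 := by
    rw [hz', w.ord_div hz0 hπz, w.ord_zpow, hwπ]
    linarith
  have hz'Ω : (z' : Ω) ≠ 0 := fun h0 => hz'0 (Subtype.ext h0)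
  have hval1 : W0.valuation (z' : Ω) = W0.valuation π := by
    obtain ⟨n, hn⟩ := hπ.val (z' : Ω) z'.2 hz'Ω
    have h1 := hword z' n hn
    rw [hwz'] at h1
    rw [hn, ← h1, zpow_one]
  refine ⟨(z' : Ω), ⟨z'.2, hz'Ω, by rw [hval1]; exact hπ.lt, fun y hy hy0 => ?_⟩, ?_⟩
  · obtain ⟨n, hn⟩ := hπ.val y hy hy0
    exact ⟨n, by rw [hn, hval1]⟩
  refine rootU h _ (hN.le _ z'.2) fun W hκW hW hPW π0 hπ0' => ?_
  obtain ⟨v, hv, hvord⟩ := place (κ := κ) hN.ge W hκW hπ0'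
    (fun y hy => (hN.le y hy).2 W hκW hW hPW)
  obtain ⟨n, hn⟩ := ((hN.le _ z'.2).2 W hκW hW hPW).val' hπ0' hz'Ω
  have hvn := hvord z' n hn
  have hvw : v ≠ w := by
    rintro rfl
    obtain ⟨γ, hγ⟩ := a_conj N Ω W W0 (by rw [← hv, hw])
    apply hP0
    have h1 := h.conj (γ.restrictScalars R) W hPW
    have h2 : W.comap ((γ.restrictScalars R : Ω ≃ₐ[R] Ω) : Ω →+* Ω) = W0 := by
      ext y
      exact (hγ y).symm
    rwa [h2] at h1
  have hvw' : v ≠ pl w g := by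
    intro he
    have hvm : ∀ y : N, (y : Ω) ∈ W ↔ ((g y : N) : Ω) ∈ W0 := by
      intro y
      have h1 : y ∈ v.O ↔ (y : Ω) ∈ W := by rw [hv]; rfl
      have h2 : y ∈ v.O ↔ g y ∈ w.O := by
        rw [he, Place.mem_O, Place.mem_O]
        unfold Place.Reg
        rw [pl_ord, map_eq_zero_iff g g.injective]
      rw [← h1, h2, hmemw]
    have hlift : ∀ y : N, (g.liftNormal Ω) (y : Ω) = ((g y : N) : Ω) := fun y =>
      AlgEquiv.liftNormal_commutes g Ω y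
    obtain ⟨γ, hγ⟩ := a_conj N Ω W (W0.comap ((g.liftNormal Ω : Ω ≃ₐ[R] Ω) : Ω →+* Ω)) (by
      ext y
      change (y : Ω) ∈ W ↔ (g.liftNormal Ω) (y : Ω) ∈ W0
      rw [hlift, hvm])
    apply hP0
    have h1 := h.conj ((γ.restrictScalars R) * (g.liftNormal Ω)⁻¹) W hPW
    have h2 : W.comap (((γ.restrictScalars R) * (g.liftNormal Ω)⁻¹ : Ω ≃ₐ[R] Ω) : Ω →+* Ω) =
        W0 := by
      ext y
      have h3 := hγ ((g.liftNormal Ω)⁻¹ y)
      have h4 : (g.liftNormal Ω) ((g.liftNormal Ω)⁻¹ y) = y :=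
        (g.liftNormal Ω).apply_symm_apply y
      have h5 : (g.liftNormal Ω)⁻¹ y ∈ W0.comap ((g.liftNormal Ω : Ω ≃ₐ[R] Ω) : Ω →+* Ω) ↔
          (g.liftNormal Ω) ((g.liftNormal Ω)⁻¹ y) ∈ W0 := Iff.rfl
      rw [h5, h4] at h3
      exact h3.symm
    rwa [h2] at h1
  have hzv := hz v
  rw [Finsupp.sub_apply, Finsupp.single_apply, Finsupp.single_apply, if_neg (Ne.symm hvw),
    if_neg (Ne.symm hvw'), sub_zero, sub_zero] at hzv
  obtain ⟨b, hb⟩ := hzv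
  refine ⟨b - a * v.ord π', ?_⟩
  rw [hn, ← hvn, hz', v.ord_div hz0 hπz, v.ord_zpow, hb]
  congr 1
  ring

/-- the stabilisers of cusps are torsion free -/
theorem tors_cusp (hka : Algebra.IsAlgebraic k κ) (h : Hyp ℓ κ x B P N0)
    {W : ValuationSubring (MFU ℓ κ P N0)}
    (hκ : ∀ c : κ, algebraMap κ (MFU ℓ κ P N0) c ∈ W) (htop : W ≠ ⊤) (W0 : ValuationSubring Ω)
    (hW0 : W0.comap (algebraMap (MFU ℓ κ P N0) Ω) = W) (hP0 : ¬ P W0)
    (γ : MFU ℓ κ P N0 ≃ₐ[R] MFU ℓ κ P N0) (hγℓ : γ ^ ℓ = 1) (hγW : ∀ z, γ z ∈ W ↔ z ∈ W) :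
    γ = 1 := by
  classical
  haveI : CharZero R := charZero_of_injective_algebraMap (algebraMap κ R).injective
  haveI : IsAlgClosed Ω := IsAlgClosure.isAlgClosed R
  have hmem : ∀ y : MFU ℓ κ P N0, (y : Ω) ∈ W0 ↔ y ∈ W := by
    intro y
    rw [← hW0]
    rfl
  have hκ0 : ∀ c : κ, algebraMap κ Ω c ∈ W0 := fun c => (hmem (algebraMap κ _ c)).2 (hκ c)
  have htop0 : W0 ≠ ⊤ := by
    rintro rfl
    apply htop
    ext y
    exact ⟨fun _ => trivial, fun _ => (hmem y).1 trivial⟩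
  -- an automorphism which moves `W`
  obtain ⟨N1, hN1⟩ := exSL0 hka h
  obtain ⟨hNM1, ε1, ι1, hC1⟩ := gcovN h hN1
  haveI := hC1.gal
  obtain ⟨δ, hδ1, hδN⟩ : ∃ δ : MF ℓ κ N1 ≃ₐ[R] MF ℓ κ N1, δ ≠ 1 ∧
      ∀ z ∈ IntermediateField.restrict hNM1, δ z = z := by
    by_contra hno
    push Not at hno
    apply hC1.big
    rw [eq_top_iff]
    intro z _
    have h1 : z ∈ IntermediateField.fixedField
        (IntermediateField.restrict hNM1).fixingSubgroup := by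
      rw [IntermediateField.mem_fixedField_iff]
      intro γ hγ
      by_cases hγ1 : γ = 1
      · rw [hγ1]; rfl
      · exfalso
        obtain ⟨t, ht, ht'⟩ := hno γ hγ1
        rw [IntermediateField.mem_fixingSubgroup_iff] at hγ
        exact ht' (hγ t ht)
    rwa [InfiniteGalois.fixedField_fixingSubgroup] at h1
  obtain ⟨W1, hW1, -⟩ := hC1.loc (W.comap (inU h.rat hN1 : MF ℓ κ N1 →+* MFU ℓ κ P N0))
    (fun c => hκ c) (top_down h hN1 htop)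
  have hδW : ¬ Fixes W1 δ := by
    intro hf
    obtain ⟨-, π, hπ, -, hπ'⟩ := above_M hC1 hδ1 hf
    exact hπ' (hδN π hπ)
  obtain ⟨a, ha⟩ : ∃ a : MF ℓ κ N1, ¬ (inU h.rat hN1 (δ a) ∈ W ↔ inU h.rat hN1 a ∈ W) := by
    by_contra hno
    push Not at hno
    apply hδW
    refine fixes_of_O W1 (δ : MF ℓ κ N1 ≃+* MF ℓ κ N1) (RingEquiv.refl κ) (fun c => ?_) fun z => ?_
    · change δ (algebraMap κ _ c) = algebraMap κ _ c
      rw [IsScalarTower.algebraMap_apply κ R (MF ℓ κ N1)]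
      exact δ.commutes _
    · rw [hW1]
      exact hno z
  obtain ⟨δ', hδ'⟩ := liftG h hN1 δ
  -- all elements are fixed
  ext u
  change ((γ u : MFU ℓ κ P N0) : Ω) = (u : Ω)
  congr 1
  obtain ⟨N, hN, hle, haN, huN⟩ := exSL2 hka h N1 hN1 (inU h.rat hN1 a) u
  obtain ⟨hNM, ε, ι, hC⟩ := gcovN h hN
  haveI := hC.gal
  haveI : Normal R (MF ℓ κ N) := hC.gal.to_normal
  -- the restriction of `δ'` to `N`
  obtain ⟨g, hg⟩ : ∃ g : N ≃ₐ[R] N, ∀ y : N,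
      ((g y : N) : Ω) = (δ' ⟨(y : Ω), hN.le _ y.2⟩ : MFU ℓ κ P N0) := by
    have hle' : N ≤ MFU ℓ κ P N0 := fun y hy => hN.le y hy
    letI : Algebra N (MFU ℓ κ P N0) := (IntermediateField.inclusion hle').toAlgebra
    haveI : IsScalarTower R N (MFU ℓ κ P N0) := IsScalarTower.of_algebraMap_eq fun r => rfl
    haveI := hN.lev.gal
    haveI : Normal R N := hN.lev.gal.to_normal
    refine ⟨δ'.restrictNormal N, fun y => ?_⟩
    exact congrArg (fun w : MFU ℓ κ P N0 => (w : Ω)) (AlgEquiv.restrictNormal_commutes δ' N y)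
  obtain ⟨z, hz, y, hy, hyz⟩ := kum h hN W0 hκ0 htop0 hP0 g ⟨⟨_, haN⟩, by
    intro hiff
    apply ha
    have h1 : ((g ⟨_, haN⟩ : N) : Ω) = (inU h.rat hN1 (δ a) : MFU ℓ κ P N0) := by
      rw [hg, ← hδ']
    rw [h1, hmem] at hiff
    rw [hiff]
    exact hmem _⟩
  -- the level `N`
  obtain ⟨c, hc⟩ := restG h hN γ
  obtain ⟨WN, hWN, -⟩ := hC.loc (W.comap (inU h.rat hN : MF ℓ κ N →+* MFU ℓ κ P N0))
    (fun c => hκ c) (top_down h hN htop)
  have hcW : Fixes WN c := by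
    refine fixes_of_O WN (c : MF ℓ κ N ≃+* MF ℓ κ N) (RingEquiv.refl κ) (fun e => ?_) fun w => ?_
    · change c (algebraMap κ _ e) = algebraMap κ _ e
      rw [IsScalarTower.algebraMap_apply κ R (MF ℓ κ N)]
      exact c.commutes _
    · rw [hWN]
      change inU h.rat hN (c w) ∈ W ↔ inU h.rat hN w ∈ W
      rw [hc]
      exact hγW _
  have hzM : z ∈ MF ℓ κ N := leMF h hN hz.mem
  obtain ⟨zN, hzN⟩ : ∃ zN : MF ℓ κ N, zN = ⟨z, hzM⟩ := ⟨_, rfl⟩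
  have hzNΩ : (zN : Ω) = z := by rw [hzN]
  have hmemN : ∀ w : MF ℓ κ N, w ∈ WN.O ↔ (w : Ω) ∈ W0 := by
    intro w
    rw [hWN]
    exact (hmem (inU h.rat hN w)).symm
  have hzN0 : zN ≠ 0 := by
    intro h0
    apply hz.ne
    rw [← hzNΩ, h0]
    rfl
  have hnonN : ∀ w : MF ℓ κ N, w ∈ WN.O.nonunits ↔ (w : Ω) ∈ W0.nonunits := by
    intro w
    have h1 : WN.O = W0.comap (algebraMap (MF ℓ κ N) Ω) := by
      ext v
      exact hmemN v
    rw [h1]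
    exact non_incl (algebraMap (MF ℓ κ N) Ω) W0 w
  have hord : WN.ord zN = 1 := by
    obtain ⟨-, π, hπ, hπ1⟩ := hC.loc' WN
    have hπN : (π : Ω) ∈ N := (IntermediateField.mem_restrict hNM π).1 hπ
    have hπ0 : π ≠ 0 := ne_of_ord hπ1
    obtain ⟨n, hn⟩ := hz.val (π : Ω) hπN (fun h0 => hπ0 (Subtype.ext h0))
    have hpos : 0 < WN.ord zN := by
      rw [← O_non_iff WN hzN0, hnonN, hzNΩ]
      exact (ValuationSubring.mem_nonunits_iff _).2 hz.lt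
    have hzn0 : zN ^ n ≠ 0 := zpow_ne_zero _ hzN0
    have hu : IsU W0 ((π / zN ^ n : MF ℓ κ N) : Ω) := by
      rw [Pool.Agent.Y948.PS.isU_iff]
      have h1 : ((π / zN ^ n : MF ℓ κ N) : Ω) = (π : Ω) / z ^ n := by
        rw [← hzNΩ]; push_cast; rfl
      rw [h1, map_div₀, map_zpow₀, hn, div_self]
      exact zpow_ne_zero _ ((Valuation.ne_zero_iff _).2 hz.ne)
    have hu1 : π / zN ^ n ∈ WN.O := (hmemN _).2 hu.2.1
    have hu2 : (π / zN ^ n)⁻¹ ∈ WN.O := (hmemN _).2 hu.2.2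
    have hq0 : π / zN ^ n ≠ 0 := div_ne_zero hπ0 hzn0
    rw [O_iff WN hq0, WN.ord_div hπ0 hzn0, WN.ord_zpow, hπ1] at hu1
    rw [O_iff WN (inv_ne_zero hq0), WN.ord_inv, WN.ord_div hπ0 hzn0, WN.ord_zpow, hπ1] at hu2
    have h3 : n * WN.ord zN = 1 := by omega
    rcases Int.eq_one_or_neg_one_of_mul_eq_one (by rw [mul_comm]; exact h3) with h4 | h4
    · exact h4
    · omega
  -- the level `N'`
  obtain ⟨N', hN', hle', hyN', -⟩ := exSL2 hka h N hN ⟨y, hy⟩ ⟨y, hy⟩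
  obtain ⟨hNM', ε', ι', hC'⟩ := gcovN h hN'
  haveI := hC'.gal
  obtain ⟨c', hc'⟩ := restG h hN' γ
  obtain ⟨WN', hWN', -⟩ := hC'.loc (W.comap (inU h.rat hN' : MF ℓ κ N' →+* MFU ℓ κ P N0))
    (fun c => hκ c) (top_down h hN' htop)
  have hcW' : Fixes WN' c' := by
    refine fixes_of_O WN' (c' : MF ℓ κ N' ≃+* MF ℓ κ N') (RingEquiv.refl κ) (fun e => ?_)
      fun w => ?_
    · change c' (algebraMap κ _ e) = algebraMap κ _ e
      rw [IsScalarTower.algebraMap_apply κ R (MF ℓ κ N')]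
      exact c'.commutes _
    · rw [hWN']
      change inU h.rat hN' (c' w) ∈ W ↔ inU h.rat hN' w ∈ W
      rw [hc']
      exact hγW _
  have hpow : ∀ (n : ℕ) (w : MF ℓ κ N'), inU h.rat hN' ((c' ^ n) w) = (γ ^ n) (inU h.rat hN' w) := by
    intro n
    induction n with
    | zero => intro w; rfl
    | succ n ih =>
      intro w
      rw [pow_succ, pow_succ]
      change inU h.rat hN' ((c' ^ n) (c' w)) = (γ ^ n) (γ (inU h.rat hN' w))
      rw [ih, hc']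
  have hinj : ∀ v w : MF ℓ κ N', inU h.rat hN' v = inU h.rat hN' w → v = w := fun v w hvw =>
    (inU h.rat hN').injective hvw
  have hc'ℓ : c' ^ ℓ = 1 := by
    ext w
    change (((c' ^ ℓ) w : MF ℓ κ N') : Ω) = (w : Ω)
    congr 1
    apply hinj
    rw [hpow, hγℓ]
    rfl
  have hyM' : y ∈ MF ℓ κ N' := leMF h hN' hyN'
  obtain ⟨yN, hyN⟩ : ∃ yN : MF ℓ κ N', yN = ⟨y, hyM'⟩ := ⟨_, rfl⟩
  have hy0 : yN ≠ 0 := by
    intro h0
    have h1 : y = 0 := by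
      have h2 := congrArg (fun w : MF ℓ κ N' => (w : Ω)) h0
      rw [hyN] at h2
      exact h2
    rw [h1, zero_pow (Fact.out : ℓ.Prime).ne_zero] at hyz
    exact hz.ne hyz.symm
  obtain ⟨d, hd0, hd⟩ := exists_chi h.rat hcW' hy0
  have hdℓ : d ^ ℓ = 1 := chi_tors h.rat hcW' hy0 hd hc'ℓ
  -- the power
  have hdn : ∀ n : ℕ, (c' yN / yN) ^ n - algebraMap κ (MF ℓ κ N') (d ^ n) ∈ WN'.O.nonunits := by
    intro n
    induction n with
    | zero => rw [pow_zero, pow_zero, map_one, sub_self]; exact zero_non' WN'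
    | succ n ih => rw [pow_succ, pow_succ]; exact mul_cong ih hd
  have h1 := hdn ℓ
  rw [hdℓ, div_pow, ← map_pow] at h1
  have hmemN' : ∀ w : MF ℓ κ N', w ∈ WN'.O.nonunits ↔ (w : Ω) ∈ W0.nonunits := by
    intro w
    have h1 : WN'.O = W0.comap (algebraMap (MF ℓ κ N') Ω) := by
      ext v
      rw [hWN']
      exact (hmem (inU h.rat hN' v)).symm
    rw [h1]
    exact non_incl (algebraMap (MF ℓ κ N') Ω) W0 w
  rw [hmemN'] at h1
  have h2 : c = 1 := by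
    refine chi_inj h.rat hC.lev hcW (ρ := zN) ?_ hord ?_
    · rw [hzN]
      exact (IntermediateField.mem_restrict hNM _).2 hz.mem
    · rw [hnonN]
      have h3 : ((c zN / zN - algebraMap κ (MF ℓ κ N) 1 : MF ℓ κ N) : Ω) =
          ((c' (yN ^ ℓ) / yN ^ ℓ - algebraMap κ (MF ℓ κ N') 1 : MF ℓ κ N') : Ω) := by
        have h4 : ((c zN : MF ℓ κ N) : Ω) = ((c' (yN ^ ℓ) : MF ℓ κ N') : Ω) := by
          have h5 := congrArg (fun w : MFU ℓ κ P N0 => (w : Ω)) (hc zN)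
          have h6 := congrArg (fun w : MFU ℓ κ P N0 => (w : Ω)) (hc' (yN ^ ℓ))
          have h7 : inU h.rat hN zN = inU h.rat hN' (yN ^ ℓ) := by
            apply Subtype.ext
            change (zN : Ω) = ((yN ^ ℓ : MF ℓ κ N') : Ω)
            rw [hzNΩ, ← hyz, hyN]
            rfl
          rw [h7] at h5
          exact h5.trans h6.symm
        have h8 : (zN : Ω) = ((yN ^ ℓ : MF ℓ κ N') : Ω) := by
          rw [hzNΩ, ← hyz, hyN]
          rfl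
        change ((c zN : MF ℓ κ N) : Ω) / (zN : Ω) - algebraMap κ Ω 1 =
          ((c' (yN ^ ℓ) : MF ℓ κ N') : Ω) / ((yN ^ ℓ : MF ℓ κ N') : Ω) - algebraMap κ Ω 1
        rw [h4, h8]
      rw [h3]
      exact h1
  have h3 := hc ⟨(u : Ω), hNM huN⟩
  rw [h2] at h3
  exact h3.symm

end kum

end Pool.Agent.H889.SY
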