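import Pool.Agent.H889.PS.Fixf
import Pool.Graph.R_seed8.R925.Q.CLFQ

/-! The classes of weight one of `M` modulo a level have bounded exponent. -/

set_option autoImplicit false
set_option linter.all false

open Polynomial FF

namespace Pool.Agent.H889.SY

open Pool.Agent.Y157.PS Pool.Agent.Y419.PS Pool.Agent.H889.PS
open Pool.Agent.R925.Q (clfq)

variable {ℓ : ℕ} [hℓi : Fact ℓ.Prime] {κ R M : Type} [Field κ] [IsAlgClosed κ] [CharZero κ]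
  [Field R] [Field M] [Algebra κ R] [Algebra R M] [Algebra κ M] [IsScalarTower κ R M] {x : R}
  {B : Finset κ} {ε : κ → ℕ} {ι : ℕ} {N₀ : IntermediateField R M}

lemma coreq (hcov : GCov ℓ κ R M x B ε ι N₀)
    (E : ℕ) (hεE : ∀ a, ε a ≤ E) (hιE : ι ≤ E)
    (F : Type) [Field F] (V : ValuationSubring κ) (r : V →+* F) (hr : Res V r) (hgood : Good V B)
    (hℓ : IsU V (ℓ : κ)) (D : Disc ℓ V r)
    (p : ℕ) [Fact p.Prime] [CharP F p] (q a : ℕ) (ha : 0 < a) (hq : q = p ^ a)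
    (hF : ∀ c : F, ∃ m : ℕ, 0 < m ∧ c ^ (q ^ m) = c)
    (O : ValuationSubring M) (hO : Gauss V (algebraMap R M x) O)
    (hOu : ∀ O' : ValuationSubring M, Gauss V (algebraMap R M x) O' → O' = O)
    (N : IntermediateField R M) (hN : Lev ℓ N)
    (φ : M ≃+* M) (φ₀ : κ ≃+* κ) (hφc : ∀ c, φ (algebraMap κ M c) = algebraMap κ M (φ₀ c))
    (hφx : φ (algebraMap R M x) = algebraMap R M x) (hφN : ∀ z, φ z ∈ N ↔ z ∈ N)
    (hφV : ∀ c, φ₀ c ∈ V ↔ c ∈ V) (hφq : ∀ c ∈ V, φ₀ c - c ^ q ∈ V.nonunits)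
    (k : Type) [Field k] [Algebra F k] (s : O →+* k) (hs : Res O s)
    (hfr : ∀ (c : κ) (hc : c ∈ V) (hc' : algebraMap κ M c ∈ O), s ⟨_, hc'⟩ = algebraMap F k (r ⟨c, hc⟩))
    (Φ : k ≃+* k) (hΦ : ∀ (z : M) (hz : z ∈ O) (hz' : φ z ∈ O), Φ (s ⟨z, hz⟩) = s ⟨φ z, hz'⟩)
    (hφO : ∀ z, φ z ∈ O ↔ z ∈ O) :
    ∃ m : ℕ, ∀ h : M, h ≠ 0 → (∃ n : ℕ, h ^ (ℓ ^ n) ∈ N) → φ h / h ^ q ∈ N → h ^ (ℓ ^ m) ∈ N := by
  classical
  haveI := hcov.gal
  haveI : IsAlgClosed F := algClosed_res V r hr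
  have hVO : ∀ c ∈ V, algebraMap κ M c ∈ O := fun c hc => (hO.1 c).2 hc
  have hκN : ∀ c : κ, algebraMap κ M c ∈ N := fun c => by
    rw [IsScalarTower.algebraMap_apply κ R M]
    exact N.algebraMap_mem _
  have hxU : IsU O (algebraMap R M x) := by
    have h1 := hO.2 (Polynomial.X : κ[X]) (fun n => by
      rw [Polynomial.coeff_X]
      split_ifs
      · exact one_mem _
      · exact zero_mem _) ⟨1, by
      rw [Polynomial.coeff_X_one]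
      exact ⟨one_ne_zero, one_mem _, by rw [inv_one]; exact one_mem _⟩⟩
    rwa [Polynomial.aeval_X] at h1
  obtain ⟨htr, hlev⟩ := g5 hcov F V r hr hℓ O hO hOu k s hs hfr
    (s ⟨algebraMap R M x, hxU.2.1⟩) (fun _ => rfl)
  obtain ⟨xb, hxb⟩ : ∃ xb, xb = s ⟨algebraMap R M x, hxU.2.1⟩ := ⟨_, rfl⟩
  rw [← hxb] at htr hlev
  have hΦx : Φ xb = xb := by
    rw [hxb, hΦ _ _ (by rw [hφx]; exact hxU.2.1)]
    congr 1
    exact Subtype.ext hφx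
  have hΦc : ∀ c : F, Φ (algebraMap F k c) = algebraMap F k (c ^ q) := by
    intro c
    obtain ⟨⟨v, hv⟩, rfl⟩ := hr.surj c
    have h1 : φ (algebraMap κ M v) ∈ O := by rw [hφc]; exact hVO _ ((hφV _).2 hv)
    rw [← hfr v hv (hVO v hv), hΦ _ _ h1]
    have h2 : (⟨φ (algebraMap κ M v), h1⟩ : O) = ⟨algebraMap κ M (φ₀ v), hVO _ ((hφV _).2 hv)⟩ :=
      Subtype.ext (hφc v)
    rw [h2, hfr _ ((hφV _).2 hv)]
    congr 1
    have h3 : r (⟨φ₀ v, (hφV _).2 hv⟩ - ⟨v, hv⟩ ^ q) = 0 := (hr.ker _).2 (hφq v hv)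
    rw [map_sub, map_pow, sub_eq_zero] at h3
    exact h3
  obtain ⟨Nb, hNb⟩ := exists_Nb hr hs hVO hfr N
  obtain ⟨hfin, hsep⟩ := hlev N hN Nb hNb
  have hxNb : xb ∈ Nb := (hNb xb).2 ⟨_, hxU.2.1, N.algebraMap_mem x, hxb.symm⟩
  have hΦNb : ∀ z, Φ z ∈ Nb ↔ z ∈ Nb := by
    intro z
    constructor
    · intro h
      obtain ⟨w, hw, hwN, hwz⟩ := (hNb _).1 h
      have h1 : φ (φ.symm w) ∈ O := by rw [RingEquiv.apply_symm_apply]; exact hw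
      have h2 : φ.symm w ∈ O := (hφO _).1 h1
      refine (hNb _).2 ⟨φ.symm w, h2, ?_, ?_⟩
      · rw [← hφN, RingEquiv.apply_symm_apply]; exact hwN
      · apply Φ.injective
        rw [hΦ _ _ h1, ← hwz]
        congr 1
        exact Subtype.ext (RingEquiv.apply_symm_apply _ _)
    · intro h
      obtain ⟨w, hw, hwN, rfl⟩ := (hNb _).1 h
      rw [hΦ _ _ ((hφO w).2 hw)]
      exact (hNb _).2 ⟨φ w, (hφO w).2 hw, (hφN w).2 hwN, rfl⟩
  have hℓp : ℓ ≠ p := by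
    rintro rfl
    have h6 : r (⟨(ℓ : κ), hℓ.2.1⟩ : V) ≠ 0 := (res_ne_zero hr _).2 hℓ
    have h7 : r (⟨(ℓ : κ), hℓ.2.1⟩ : V) = (ℓ : F) := by
      have : (⟨(ℓ : κ), hℓ.2.1⟩ : V) = ((ℓ : ℕ) : V) := by
        apply Subtype.ext
        push_cast
        rfl
      rw [this, map_natCast]
    rw [h7] at h6
    exact h6 (CharP.cast_eq_zero F ℓ)
  obtain ⟨m, hm⟩ := clfq ℓ q F k p a ha hq hℓp hF xb htr Nb hxNb hfin Φ hΦc hΦx hΦNb
  refine ⟨E + m, fun h hh0 ⟨n, hn⟩ hφh => ?_⟩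
  obtain ⟨c, hc, hu⟩ := (g2 hcov V O hO).1 h hh0
  have hc1 : algebraMap κ M c ≠ 0 := (_root_.map_ne_zero _).2 hc
  obtain ⟨u, hud⟩ : ∃ u, u = h / algebraMap κ M c := ⟨_, rfl⟩
  rw [← hud] at hu
  have hun : u ^ (ℓ ^ n) ∈ N := by
    rw [hud, div_pow]
    exact div_mem hn (pow_mem (hκN _) _)
  obtain ⟨g, hg⟩ : ∃ g : k, g = s ⟨u, hu.2.1⟩ := ⟨_, rfl⟩
  have hg0 : g ≠ 0 := by rw [hg]; exact (res_ne_zero hs _).2 hu
  have hgn : g ^ (ℓ ^ n) ∈ Nb := (hNb _).2 ⟨_, pow_mem hu.2.1 _, hun, by rw [hg, ← map_pow]; rfl⟩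
  have hgq : Φ g / g ^ q ∈ Nb := by
    have hφu : φ u ∈ O := (hφO u).2 hu.2.1
    rw [hg, hΦ _ _ hφu]
    have h1 : φ u * (u⁻¹) ^ q ∈ O := mul_mem hφu (pow_mem hu.2.2 _)
    refine (hNb _).2 ⟨φ u * (u⁻¹) ^ q, h1, ?_, ?_⟩
    · have h2 : φ u * (u⁻¹) ^ q =
          (φ h / h ^ q) * ((algebraMap κ M c) ^ q / φ (algebraMap κ M c)) := by
        have e2 : φ (algebraMap κ M c) ≠ 0 := (map_ne_zero_iff φ φ.injective).2 hc1
        rw [hud, map_div₀, inv_div, div_pow]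
        field_simp
      rw [h2, hφc]
      exact mul_mem hφh (div_mem (pow_mem (hκN _) _) (hκN _))
    · rw [eq_div_iff (pow_ne_zero _ (by rw [← hg]; exact hg0)), ← map_pow, ← map_mul]
      congr 1
      apply Subtype.ext
      show φ u * (u⁻¹) ^ q * u ^ q = φ u
      rw [mul_assoc, ← mul_pow, inv_mul_cancel₀ hu.1, one_pow, mul_one]
  have hgm0 := hm (g ^ (ℓ ^ E)) (pow_ne_zero _ hg0) ⟨n, by
      rw [← pow_mul, mul_comm, pow_mul]
      exact pow_mem hgn _, fun w => by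
      have h1 := g4 hcov F V r hr hgood D O hO hOu k s hs hfr E hεE hιE N hN Nb hNb
        u hu.2.1 n hu.2.2 hu.1 hun w ⟨_, hgn⟩ (congrArg (· ^ (ℓ ^ n)) hg)
      have h2 : (⟨(g ^ (ℓ ^ E)) ^ (ℓ ^ n), by
          rw [← pow_mul, mul_comm, pow_mul]
          exact pow_mem hgn _⟩ : Nb) = (⟨_, hgn⟩ : Nb) ^ (ℓ ^ E) := by
        apply Subtype.ext
        change (g ^ (ℓ ^ E)) ^ (ℓ ^ n) = (g ^ (ℓ ^ n)) ^ (ℓ ^ E)
        rw [← pow_mul, ← pow_mul, mul_comm]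
      rw [h2, w.ord_pow]
      push_cast
      exact h1⟩ (by
      have h1 : Φ (g ^ (ℓ ^ E)) / (g ^ (ℓ ^ E)) ^ q = (Φ g / g ^ q) ^ (ℓ ^ E) := by
        rw [map_pow, div_pow, ← pow_mul, ← pow_mul, mul_comm q]
      rw [h1]
      exact pow_mem hgq _)
  have hgm : g ^ (ℓ ^ (E + m)) ∈ Nb := by
    rw [pow_add, pow_mul]
    exact hgm0
  obtain ⟨v, hv, hvN, hvs⟩ := (hNb _).1 hgm
  have hvU : IsU O v := (res_ne_zero hs ⟨v, hv⟩).1 (by
    rw [hvs]; exact pow_ne_zero _ hg0)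
  have ht : u ^ (ℓ ^ (E + m)) * v⁻¹ ∈ O := mul_mem (pow_mem hu.2.1 _) hvU.2.2
  have hst : s ⟨u ^ (ℓ ^ (E + m)) * v⁻¹, ht⟩ = 1 := by
    have h1 : (⟨u ^ (ℓ ^ (E + m)) * v⁻¹, ht⟩ * ⟨v, hv⟩ : O) = ⟨u, hu.2.1⟩ ^ (ℓ ^ (E + m)) := by
      apply Subtype.ext
      show u ^ (ℓ ^ (E + m)) * v⁻¹ * v = u ^ (ℓ ^ (E + m))
      rw [mul_assoc, inv_mul_cancel₀ hvU.1, mul_one]
    have h2 := congrArg s h1
    rw [map_mul, map_pow, ← hg, hvs] at h2
    exact mul_right_cancel₀ (pow_ne_zero (ℓ ^ (E + m)) hg0) (h2.trans (one_mul _).symm)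
  have htN := mem_of_res_one hr (Fact.out : ℓ.Prime).pos hℓ hO hOu hs N _ ht hst n (by
    rw [mul_pow, ← pow_mul, mul_comm (ℓ ^ (E + m)), pow_mul]
    exact mul_mem (pow_mem hun _) (pow_mem (inv_mem hvN) _))
  have h3 : h ^ (ℓ ^ (E + m)) =
      (u ^ (ℓ ^ (E + m)) * v⁻¹) * v * (algebraMap κ M c) ^ (ℓ ^ (E + m)) := by
    have e4 := hvU.1
    rw [hud, div_pow]
    field_simp
  rw [h3]
  exact mul_mem (mul_mem htN hvN) (pow_mem (hκN _) _)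

/-- the classes of `M` modulo `N` on which `φ` acts by the `q`-th power have bounded exponent -/
theorem fixq (hcov : GCov ℓ κ R M x B ε ι N₀)
    (E : ℕ) (hεE : ∀ a, ε a ≤ E) (hιE : ι ≤ E)
    (F : Type) [Field F] (V : ValuationSubring κ) (r : V →+* F) (hr : Res V r) (hgood : Good V B)
    (hℓ : IsU V (ℓ : κ)) (D : Disc ℓ V r)
    (p : ℕ) [Fact p.Prime] [CharP F p] (q a : ℕ) (ha : 0 < a) (hq : q = p ^ a)
    (hF : ∀ c : F, ∃ m : ℕ, 0 < m ∧ c ^ (q ^ m) = c)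
    (O : ValuationSubring M) (hO : Gauss V (algebraMap R M x) O)
    (hOu : ∀ O' : ValuationSubring M, Gauss V (algebraMap R M x) O' → O' = O)
    (N : IntermediateField R M) (hN : Lev ℓ N)
    (φ : M ≃+* M) (φ₀ : κ ≃+* κ) (hφc : ∀ c, φ (algebraMap κ M c) = algebraMap κ M (φ₀ c))
    (hφx : φ (algebraMap R M x) = algebraMap R M x) (hφN : ∀ z, φ z ∈ N ↔ z ∈ N)
    (hφV : ∀ c, φ₀ c ∈ V ↔ c ∈ V) (hφq : ∀ c ∈ V, φ₀ c - c ^ q ∈ V.nonunits) :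
    ∃ m : ℕ, ∀ h : M, h ≠ 0 → (∃ n : ℕ, h ^ (ℓ ^ n) ∈ N) → φ h / h ^ q ∈ N → h ^ (ℓ ^ m) ∈ N := by
  have hVO : ∀ c ∈ V, algebraMap κ M c ∈ O := fun c hc => (hO.1 c).2 hc
  have hφO : ∀ z, φ z ∈ O ↔ z ∈ O := by
    intro z
    have h1 := hOu _ (gauss_comap hO φ φ₀ hφc hφx hφV)
    rw [show (φ z ∈ O) = (z ∈ O.comap (φ : M →+* M)) from rfl, h1]
  let iV : V →+* O := ((algebraMap κ M).comp V.subtype).codRestrict O.toSubring (fun c => hVO c c.2)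
  have hker : RingHom.ker r ≤ RingHom.ker ((IsLocalRing.residue O).comp iV) := by
    intro c hc
    rw [RingHom.mem_ker, hr.ker, ValuationSubring.mem_nonunits_iff_or] at hc
    rw [RingHom.mem_ker, RingHom.comp_apply, (res_residue O).ker, ValuationSubring.mem_nonunits_iff_or]
    show algebraMap κ M c = 0 ∨ (algebraMap κ M c)⁻¹ ∉ O
    rcases hc with hc | hc
    · left; rw [hc, map_zero]
    · right; rw [← map_inv₀, hO.1]; exact hc
  let f : F →+* IsLocalRing.ResidueField O :=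
    (r.liftOfSurjective hr.surj) ⟨(IsLocalRing.residue O).comp iV, hker⟩
  letI : Algebra F (IsLocalRing.ResidueField O) := f.toAlgebra
  have hfr : ∀ (c : κ) (hc : c ∈ V) (hc' : algebraMap κ M c ∈ O),
      IsLocalRing.residue O ⟨_, hc'⟩ = algebraMap F (IsLocalRing.ResidueField O) (r ⟨c, hc⟩) := by
    intro c hc hc'
    exact (RingHom.liftOfSurjective_comp_apply r hr.surj ⟨(IsLocalRing.residue O).comp iV, hker⟩ ⟨c, hc⟩).symm
  let φO : O ≃+* O :=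
    { toFun := fun z => ⟨φ z, (hφO z).2 z.2⟩
      invFun := fun z => ⟨φ.symm z, (hφO _).1 (by rw [RingEquiv.apply_symm_apply]; exact z.2)⟩
      left_inv := fun z => Subtype.ext (RingEquiv.symm_apply_apply _ _)
      right_inv := fun z => Subtype.ext (RingEquiv.apply_symm_apply _ _)
      map_mul' := fun z w => Subtype.ext (map_mul φ _ _)
      map_add' := fun z w => Subtype.ext (map_add φ _ _) }
  exact coreq hcov E hεE hιE F V r hr hgood hℓ D p q a ha hq hF O hO hOu N hN φ φ₀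
    hφc hφx hφN hφV hφq (IsLocalRing.ResidueField O) (IsLocalRing.residue O) (res_residue O) hfr
    (IsLocalRing.ResidueField.mapEquiv φO) (fun z hz hz' => rfl) hφO

end Pool.Agent.H889.SY
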