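import Pool.Agent.H889.SY.Cen
import Pool.Agent.H889.LM.Compat

/-!
# Automorphisms and valuation rings of the union of the compactified levels
-/

set_option autoImplicit false
set_option linter.all false

open Polynomial FF

namespace Pool.Agent.H889.SY

open Pool.Agent.Y157.PS Pool.Agent.Y948.PS Pool.Agent.H889.PS Pool.Agent.H889.LM

section glue

variable {κ R Ω : Type} [Field κ] [IsAlgClosed κ] [CharZero κ] [Field R] [Field Ω] [Algebra κ R]
  [Algebra R Ω] [Algebra κ Ω] [IsScalarTower κ R Ω] {x : R} {ℓ : ℕ} [Fact ℓ.Prime]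
  {N0 : IntermediateField R Ω} {P : ValuationSubring Ω → Prop} [IsAlgClosure R Ω]
  {k : Type} [Field k] [Algebra k κ] {B : Finset κ}

theorem MFU_normal (h : Hyp ℓ κ x B P N0) : Normal R (MFU ℓ κ P N0) := by
  haveI : CharZero R := charZero_of_injective_algebraMap (algebraMap κ R).injective
  haveI : IsAlgClosed Ω := IsAlgClosure.isAlgClosed R
  have hK : ∀ (γ : Ω ≃ₐ[R] Ω), ∀ t ∈ N0, γ t ∈ N0 := fun γ t ht => lev_stable h.lev γ t ht
  rw [IntermediateField.normal_iff_forall_map_le']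
  rintro σ _ ⟨z, hz, rfl⟩
  exact hz.conj h.conj hK σ

theorem MFU_gal (h : Hyp ℓ κ x B P N0) : IsGalois R (MFU ℓ κ P N0) := by
  haveI : CharZero R := charZero_of_injective_algebraMap (algebraMap κ R).injective
  haveI := MFU_normal h
  haveI : Algebra.IsSeparable R (MFU ℓ κ P N0) :=
    Algebra.IsAlgebraic.isSeparable_of_perfectField
  exact ⟨⟩

theorem N0_le' (h : Hyp ℓ κ x B P N0) : ∀ z ∈ N0, MemU ℓ κ P N0 z := by
  haveI : CharZero R := charZero_of_injective_algebraMap (algebraMap κ R).injective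
  haveI : IsAlgClosed Ω := IsAlgClosure.isAlgClosed R
  exact fun z hz => ⟨Pro_lev h.lev z hz, fun W h1 h2 _ => Apx.of_mem hz⟩

/-- stable levels with two given elements -/
theorem exSL2 (hka : Algebra.IsAlgebraic k κ) (h : Hyp ℓ κ x B P N0) (N : IntermediateField R Ω)
    (hN : SL ℓ k κ x P N0 N) (a b : MFU ℓ κ P N0) :
    ∃ N' : IntermediateField R Ω, SL ℓ k κ x P N0 N' ∧ N ≤ N' ∧ (a : Ω) ∈ N' ∧ (b : Ω) ∈ N' := by
  obtain ⟨N2, hN2, ha, h2⟩ := exists_SL k hka h.rat h.lev h.conj N hN.lev hN.le (a : Ω) a.2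
  obtain ⟨N3, hN3, hb, h3⟩ := exists_SL k hka h.rat h.lev h.conj N2 hN2.lev hN2.le (b : Ω) b.2
  exact ⟨N3, hN3, h2.trans h3, h3 ha, hb⟩

theorem exSL0 (hka : Algebra.IsAlgebraic k κ) (h : Hyp ℓ κ x B P N0) :
    ∃ N : IntermediateField R Ω, SL ℓ k κ x P N0 N := by
  obtain ⟨N1, hN1, -, -⟩ := exists_SL k hka h.rat h.lev h.conj N0 h.lev (N0_le' h) (0 : Ω)
    (N0_le' h 0 (zero_mem _))
  exact ⟨N1, hN1⟩

theorem dirSL (hka : Algebra.IsAlgebraic k κ) (h : Hyp ℓ κ x B P N0)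
    (N N' : IntermediateField R Ω) (hN : SL ℓ k κ x P N0 N) (hN' : SL ℓ k κ x P N0 N') :
    ∃ N'' : IntermediateField R Ω, SL ℓ k κ x P N0 N'' ∧ N ≤ N'' ∧ N' ≤ N'' := by
  haveI : CharZero R := charZero_of_injective_algebraMap (algebraMap κ R).injective
  haveI := hN'.lev.fin
  obtain ⟨α, hα⟩ := Field.exists_primitive_element R N'
  obtain ⟨N'', hN'', ha, h2⟩ := exists_SL k hka h.rat h.lev h.conj N hN.lev hN.le (α : Ω)
    (hN'.le _ α.2)
  refine ⟨N'', hN'', h2, fun y hy => ?_⟩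
  have h3 : (⟨y, hy⟩ : N') ∈ IntermediateField.adjoin R {α} := by rw [hα]; trivial
  have h4 : (IntermediateField.adjoin R {α}).map N'.val ≤ N'' := by
    rw [IntermediateField.adjoin_map, IntermediateField.adjoin_le_iff]
    rintro _ ⟨w, hw, rfl⟩
    rw [Set.mem_singleton_iff] at hw
    rw [hw]
    exact ha
  exact h4 ⟨⟨y, hy⟩, h3, rfl⟩

theorem leMF (h : Hyp ℓ κ x B P N0) {N : IntermediateField R Ω} (hN : SL ℓ k κ x P N0 N) :
    N ≤ MF ℓ κ N := by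
  obtain ⟨hNM, -⟩ := gcovN h hN
  exact hNM

/-- restriction of automorphisms -/
theorem restG (h : Hyp ℓ κ x B P N0) {N : IntermediateField R Ω} (hN : SL ℓ k κ x P N0 N)
    (γ : MFU ℓ κ P N0 ≃ₐ[R] MFU ℓ κ P N0) :
    ∃ c : MF ℓ κ N ≃ₐ[R] MF ℓ κ N, ∀ y, inU h.rat hN (c y) = γ (inU h.rat hN y) := by
  obtain ⟨hNM, ε, ι, hC⟩ := gcovN h hN
  haveI := hC.gal
  haveI : Normal R (MF ℓ κ N) := hC.gal.to_normal
  letI : Algebra (MF ℓ κ N) (MFU ℓ κ P N0) := (inU h.rat hN).toAlgebra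
  haveI : IsScalarTower R (MF ℓ κ N) (MFU ℓ κ P N0) := IsScalarTower.of_algebraMap_eq fun r => rfl
  exact ⟨γ.restrictNormal (MF ℓ κ N), fun y => AlgEquiv.restrictNormal_commutes γ (MF ℓ κ N) y⟩

/-- lifts of automorphisms -/
theorem liftG (h : Hyp ℓ κ x B P N0) {N : IntermediateField R Ω} (hN : SL ℓ k κ x P N0 N)
    (c : MF ℓ κ N ≃ₐ[R] MF ℓ κ N) :
    ∃ γ : MFU ℓ κ P N0 ≃ₐ[R] MFU ℓ κ P N0, ∀ y, γ (inU h.rat hN y) = inU h.rat hN (c y) := by
  letI : Algebra (MF ℓ κ N) (MFU ℓ κ P N0) := (inU h.rat hN).toAlgebra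
  haveI : IsScalarTower R (MF ℓ κ N) (MFU ℓ κ P N0) := IsScalarTower.of_algebraMap_eq fun r => rfl
  haveI := MFU_normal h
  exact ⟨c.liftNormal (MFU ℓ κ P N0), fun y => AlgEquiv.liftNormal_commutes c (MFU ℓ κ P N0) y⟩

/-- valuation rings with the same restriction to a level are conjugate -/
theorem conjG (h : Hyp ℓ κ x B P N0) {N : IntermediateField R Ω} (hN : SL ℓ k κ x P N0 N)
    (W W' : ValuationSubring (MFU ℓ κ P N0))
    (hW : W.comap (inU h.rat hN : MF ℓ κ N →+* MFU ℓ κ P N0) =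
      W'.comap (inU h.rat hN : MF ℓ κ N →+* MFU ℓ κ P N0)) :
    ∃ γ : MFU ℓ κ P N0 ≃ₐ[R] MFU ℓ κ P N0, (∀ y, γ (inU h.rat hN y) = inU h.rat hN y) ∧
      ∀ z, z ∈ W' ↔ γ z ∈ W := by
  letI : Algebra (MF ℓ κ N) (MFU ℓ κ P N0) := (inU h.rat hN).toAlgebra
  haveI : IsScalarTower R (MF ℓ κ N) (MFU ℓ κ P N0) := IsScalarTower.of_algebraMap_eq fun r => rfl
  haveI := MFU_normal h
  haveI : Normal (MF ℓ κ N) (MFU ℓ κ P N0) :=
    Normal.tower_top_of_normal R (MF ℓ κ N) (MFU ℓ κ P N0)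
  obtain ⟨γ, hγ⟩ := a_conj (MF ℓ κ N) (MFU ℓ κ P N0) W W' hW
  exact ⟨γ.restrictScalars R, fun y => γ.commutes y, hγ⟩

/-- a nontrivial valuation ring over `κ` is nontrivial on the levels -/
theorem top_down (h : Hyp ℓ κ x B P N0) {N : IntermediateField R Ω} (hN : SL ℓ k κ x P N0 N)
    {W : ValuationSubring (MFU ℓ κ P N0)} (hW : W ≠ ⊤) :
    W.comap (inU h.rat hN : MF ℓ κ N →+* MFU ℓ κ P N0) ≠ ⊤ := by
  intro htop
  apply hW
  letI : Algebra (MF ℓ κ N) (MFU ℓ κ P N0) := (inU h.rat hN).toAlgebra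
  haveI : IsScalarTower R (MF ℓ κ N) (MFU ℓ κ P N0) := IsScalarTower.of_algebraMap_eq fun r => rfl
  haveI : Algebra.IsAlgebraic (MF ℓ κ N) (MFU ℓ κ P N0) := Algebra.IsAlgebraic.tower_top (K := R) _
  refine eq_top_of_alg (F := MF ℓ κ N) W fun y => ?_
  have h1 : y ∈ W.comap (inU h.rat hN : MF ℓ κ N →+* MFU ℓ κ P N0) := by
    rw [htop]; trivial
  exact h1

/-- compatible valuation rings of the levels -/
theorem glue (hka : Algebra.IsAlgebraic k κ) (h : Hyp ℓ κ x B P N0) {N1 : IntermediateField R Ω}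
    (hN1 : SL ℓ k κ x P N0 N1)
    (Q : ∀ N : IntermediateField R Ω, SL ℓ k κ x P N0 N → N1 ≤ N → ValuationSubring (MF ℓ κ N))
    (hcomp : ∀ (N N' : IntermediateField R Ω) (hN : SL ℓ k κ x P N0 N)
      (hN' : SL ℓ k κ x P N0 N') (hle : N1 ≤ N) (hle' : N1 ≤ N') (hNN : N ≤ N')
      (y : Ω) (hy : y ∈ MF ℓ κ N) (hy' : y ∈ MF ℓ κ N'),
      (⟨y, hy⟩ : MF ℓ κ N) ∈ Q N hN hle ↔ (⟨y, hy'⟩ : MF ℓ κ N') ∈ Q N' hN' hle') :
    ∃ W : ValuationSubring (MFU ℓ κ P N0),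
      ∀ (N : IntermediateField R Ω) (hN : SL ℓ k κ x P N0 N) (hle : N1 ≤ N),
        W.comap (inU h.rat hN : MF ℓ κ N →+* MFU ℓ κ P N0) = Q N hN hle := by
  have hcomp2 : ∀ (N N' : IntermediateField R Ω) (hN : SL ℓ k κ x P N0 N)
      (hN' : SL ℓ k κ x P N0 N') (hle : N1 ≤ N) (hle' : N1 ≤ N')
      (y : Ω) (hy : y ∈ MF ℓ κ N) (hy' : y ∈ MF ℓ κ N'),
      (⟨y, hy⟩ : MF ℓ κ N) ∈ Q N hN hle ↔ (⟨y, hy'⟩ : MF ℓ κ N') ∈ Q N' hN' hle' := by
    intro N N' hN hN' hle hle' y hy hy'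
    obtain ⟨N2, hN2, h1, h2⟩ := dirSL hka h N N' hN hN'
    have hy2 : y ∈ MF ℓ κ N2 := Mem_mono h1 hy
    rw [hcomp N N2 hN hN2 hle (hle.trans h1) h1 y hy hy2,
      hcomp N' N2 hN' hN2 hle' (hle.trans h1) h2 y hy' hy2]
  obtain ⟨mem, hmem⟩ : ∃ mem : MFU ℓ κ P N0 → Prop, ∀ y, mem y ↔
      ∃ (N : IntermediateField R Ω) (hN : SL ℓ k κ x P N0 N) (hle : N1 ≤ N)
        (hy : (y : Ω) ∈ MF ℓ κ N), (⟨(y : Ω), hy⟩ : MF ℓ κ N) ∈ Q N hN hle := ⟨_, fun y => Iff.rfl⟩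
  have hmemN : ∀ (N : IntermediateField R Ω) (hN : SL ℓ k κ x P N0 N) (hle : N1 ≤ N)
      (y : MFU ℓ κ P N0) (hy : (y : Ω) ∈ MF ℓ κ N),
      mem y ↔ (⟨(y : Ω), hy⟩ : MF ℓ κ N) ∈ Q N hN hle := by
    intro N hN hle y hy
    rw [hmem]
    constructor
    · rintro ⟨N', hN', hle', hy', h1⟩
      exact (hcomp2 N' N hN' hN hle' hle y hy' hy).1 h1
    · intro h1
      exact ⟨N, hN, hle, hy, h1⟩
  let W : ValuationSubring (MFU ℓ κ P N0) :=
    { carrier := {y | mem y}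
      mul_mem' := by
        intro a b ha hb
        obtain ⟨N, hN, hle, haN, hbN⟩ := exSL2 hka h N1 hN1 a b
        have hm := leMF h hN
        have ha' := (hmemN N hN hle a (hm haN)).1 ha
        have hb' := (hmemN N hN hle b (hm hbN)).1 hb
        exact (hmemN N hN hle (a * b) (mul_mem (hm haN) (hm hbN))).2 (mul_mem ha' hb')
      one_mem' := by
        obtain ⟨N, hN, hle, haN, -⟩ := exSL2 hka h N1 hN1 1 1
        exact (hmemN N hN hle 1 (leMF h hN haN)).2 (one_mem _)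
      add_mem' := by
        intro a b ha hb
        obtain ⟨N, hN, hle, haN, hbN⟩ := exSL2 hka h N1 hN1 a b
        have hm := leMF h hN
        have ha' := (hmemN N hN hle a (hm haN)).1 ha
        have hb' := (hmemN N hN hle b (hm hbN)).1 hb
        exact (hmemN N hN hle (a + b) (add_mem (hm haN) (hm hbN))).2 (add_mem ha' hb')
      zero_mem' := by
        obtain ⟨N, hN, hle, haN, -⟩ := exSL2 hka h N1 hN1 0 0
        exact (hmemN N hN hle 0 (leMF h hN haN)).2 (zero_mem _)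
      neg_mem' := by
        intro a ha
        obtain ⟨N, hN, hle, haN, -⟩ := exSL2 hka h N1 hN1 a a
        have hm := leMF h hN
        have ha' := (hmemN N hN hle a (hm haN)).1 ha
        exact (hmemN N hN hle (-a) (neg_mem (hm haN))).2 (neg_mem ha')
      mem_or_inv_mem' := by
        intro a
        obtain ⟨N, hN, hle, haN, -⟩ := exSL2 hka h N1 hN1 a a
        have hm := leMF h hN
        rcases (Q N hN hle).mem_or_inv_mem ⟨(a : Ω), hm haN⟩ with h1 | h1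
        · exact Or.inl ((hmemN N hN hle a (hm haN)).2 h1)
        · exact Or.inr ((hmemN N hN hle a⁻¹ (inv_mem (hm haN))).2 h1) }
  refine ⟨W, fun N hN hle => ?_⟩
  ext y
  exact hmemN N hN hle (inU h.rat hN y) y.2

end glue

end Pool.Agent.H889.SY
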