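import Pool.Agent.H889.SY.CuspK

/-!
# Sections with a nontrivial centraliser: open curves
-/

set_option autoImplicit false
set_option linter.all false

open Polynomial FF

namespace Pool.Agent.H889.SY

open Pool.Agent.Y157.PS Pool.Agent.Y948.PS Pool.Agent.H889.PS Pool.Agent.H889.LM
open Pool.Agent.Y31.PS (pl pl_ord fixes_iff)
open Pool.Agent.R925.Q (SecR Lift)

/-- `Q` is a nontrivial valuation ring over `κ`, ramified over `R` -/
structure RamV (R κ : Type) {M : Type} [Field κ] [Field R] [Field M] [Algebra R M] [Algebra κ M]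
    (Q : ValuationSubring M) : Prop where
  con : ∀ c : κ, algebraMap κ M c ∈ Q
  ram : ∃ z : M, z ≠ 0 ∧ ∀ t : R, t ≠ 0 → ¬ IsU Q (z / algebraMap R M t)

theorem RamV.ne_top {R κ M : Type} [Field κ] [Field R] [Field M] [Algebra R M] [Algebra κ M]
    {Q : ValuationSubring M} (h : RamV R κ Q) : Q ≠ ⊤ := by
  rintro rfl
  obtain ⟨z, hz0, hzt⟩ := h.ram
  apply hzt 1 one_ne_zero
  rw [map_one, div_one]
  exact ⟨hz0, trivial, trivial⟩

section lev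

variable {k κ R M : Type} [Field k] [CharZero k] [Field κ] [Algebra k κ] [IsAlgClosure k κ]
    [IsAlgClosed κ] [CharZero κ]
    [Field R] [Field M] [Algebra κ R] [Algebra R M] [Algebra κ M] [IsScalarTower κ R M]
    {ℓ : ℕ} [Fact ℓ.Prime] {x : R} {B : Finset κ} {ε : κ → ℕ} {ι : ℕ}
    {N₀ : IntermediateField R M}

omit [CharZero k] [IsAlgClosure k κ] [Field k] [Algebra k κ] in
theorem ramV_place (hC : GCov ℓ κ R M x B ε ι N₀) (W : Place κ M) :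
    IsRam ε ι x W ↔ RamV R κ W.O := by
  have hπ : ∃ π ∈ (Set.univ : Set M), W.ord π = 1 := by
    obtain ⟨-, π, -, hπ⟩ := hC.loc' W
    exact ⟨π, trivial, hπ⟩
  constructor
  · intro hram
    obtain ⟨z, -, hz0, hzt⟩ := (isRam_iff hC Set.univ W hπ).1 hram
    refine ⟨fun c => W.reg_const c, z, hz0, fun t ht hu => hzt t ht ?_⟩
    rwa [isU_place W hz0 ((_root_.map_ne_zero _).2 ht)] at hu
  · rintro ⟨-, z, hz0, hzt⟩
    refine (isRam_iff hC Set.univ W hπ).2 ⟨z, trivial, hz0, fun t ht h5 => hzt t ht ?_⟩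
    rwa [isU_place W hz0 ((_root_.map_ne_zero _).2 ht)]

omit [CharZero k] [IsAlgClosure k κ] [Field k] [Algebra k κ] in
theorem fixes_V (hC : GCov ℓ κ R M x B ε ι N₀) {W : Place κ M} {γ : M ≃ₐ[R] M}
    (h : ∀ z, γ z ∈ W.O ↔ z ∈ W.O) : Fixes W γ := by
  refine fixes_of_O W (γ : M ≃+* M) (RingEquiv.refl κ) (fun c => ?_) h
  change γ (algebraMap κ M c) = algebraMap κ M c
  rw [IsScalarTower.algebraMap_apply κ R M]
  exact γ.commutes _

/-- the valuation ring of a section of a compactified level with a nontrivial centraliser -/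
theorem afsV (hR : RigN k κ x N₀) (hC : GCov ℓ κ R M x B ε ι N₀)
    {s : (κ ≃ₐ[k] κ) →* RingAut M} (hs : SecR k κ R M x s) (h1 : Cen R s ≠ ⊥) :
    ∃ Q : ValuationSubring M, RamV R κ Q ∧ (∀ σ z, s σ z ∈ Q ↔ z ∈ Q) ∧
      (∀ γ ∈ Cen R s, ∀ z, γ z ∈ Q ↔ z ∈ Q) ∧
      ∀ γ ∈ Cen R s, γ ≠ 1 → ∀ Q' : ValuationSubring M, (∀ c : κ, algebraMap κ M c ∈ Q') →
        Q' ≠ ⊤ → (∀ z, γ z ∈ Q' ↔ z ∈ Q') → Q' = Q := by
  obtain ⟨W, hram, hfix, hcen, hun⟩ := afs hR hC hs h1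
  refine ⟨W.O, (ramV_place hC W).1 hram, fun σ z => fix_O (hfix σ) z,
    fun γ hγ z => fix_O (W := W) (τ := (γ : M ≃+* M)) ((hcen γ).1 hγ) z,
    fun γ hγ hγ1 Q' h1 h2 h3 => ?_⟩
  obtain ⟨W', hW', -⟩ := hC.loc Q' h1 h2
  rw [← hW', hun γ hγ hγ1 W' (fixes_V hC (by rw [hW']; exact h3))]

end lev

section main

variable {k κ R Ω : Type} [Field k] [CharZero k] [Field κ] [Algebra k κ] [IsAlgClosure k κ]
  [IsAlgClosed κ] [CharZero κ] [Field R] [Field Ω] [Algebra κ R]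
  [Algebra R Ω] [Algebra κ Ω] [IsScalarTower κ R Ω] {x : R} {ℓ : ℕ} [Fact ℓ.Prime]
  {N0 : IntermediateField R Ω} {P : ValuationSubring Ω → Prop} [IsAlgClosure R Ω]
  {B : Finset κ} {s : (κ ≃ₐ[k] κ) →* RingAut (MFU ℓ κ P N0)}

/-- rigidity on all stable levels -/
def RigU (ℓ : ℕ) (k κ : Type) {R Ω : Type} [Field k] [Field κ] [Algebra k κ] [Field R]
    [Field Ω] [Algebra κ R] [Algebra R Ω] [Algebra κ Ω] [IsScalarTower κ R Ω]
    [Algebra.IsAlgebraic R Ω] (x : R)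
    (P : ValuationSubring Ω → Prop) (N0 : IntermediateField R Ω) : Prop :=
  ∀ (N : IntermediateField R Ω), SL ℓ k κ x P N0 N → ∀ hNM : N ≤ MF ℓ κ N,
    RigN k κ x (IntermediateField.restrict hNM)

/-- the fields of finite degree have only finitely many roots of unity of `ℓ`-power order -/
def MuB (ℓ : ℕ) (k κ : Type) [Field k] [Field κ] [Algebra k κ] : Prop :=
  ∀ H : Subgroup (κ ≃ₐ[k] κ), H.index ≠ 0 → ∃ b : ℕ, ∀ (m : ℕ) (ζ : κ), ζ ^ (ℓ ^ m) = 1 →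
    (∀ σ ∈ H, σ ζ = ζ) → ζ ^ (ℓ ^ b) = 1

omit [CharZero k] [IsAlgClosure k κ] in
theorem inU_inj (hx : RatF κ x) {N : IntermediateField R Ω} (hN : SL ℓ k κ x P N0 N)
    {v w : MF ℓ κ N} (e : inU hx hN v = inU hx hN w) : v = w := (inU hx hN).injective e

omit [CharZero k] [IsAlgClosure k κ] in
theorem cen_down (h : Hyp ℓ κ x B P N0) (hs : GSec k κ R (MFU ℓ κ P N0) x s)
    {N : IntermediateField R Ω} (hN : SL ℓ k κ x P N0 N) {H : Subgroup (κ ≃ₐ[k] κ)}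
    {γ : MFU ℓ κ P N0 ≃ₐ[R] MFU ℓ κ P N0} (hγ : ∀ σ ∈ H, ∀ z, γ (s σ z) = s σ (γ z))
    {c : MF ℓ κ N ≃ₐ[R] MF ℓ κ N} (hc : ∀ y, inU h.rat hN (c y) = γ (inU h.rat hN y)) :
    ∀ σ ∈ H, ∀ z, c (secN h.rat hs hN σ z) = secN h.rat hs hN σ (c z) := by
  intro σ hσ z
  apply inU_inj h.rat hN
  rw [hc, secN_inU, secN_inU, hc, hγ σ hσ]

omit [CharZero k] [IsAlgClosure k κ] in
theorem secN_secR (h : Hyp ℓ κ x B P N0) (hs : GSec k κ R (MFU ℓ κ P N0) x s)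
    {N : IntermediateField R Ω} (hN : SL ℓ k κ x P N0 N) :
    SecR k κ R (MF ℓ κ N) x (secN h.rat hs hN) :=
  ⟨(secN_gsec h.rat hs hN).const, (secN_gsec h.rat hs hN).fixx⟩

/-- the valuation ring of a section with a nontrivial centraliser -/
theorem symU (h : Hyp ℓ κ x B P N0) (hRig : RigU ℓ k κ x P N0) (hMu : MuB ℓ k κ)
    (hs : GSec k κ R (MFU ℓ κ P N0) x s) (hcen : Cen R s ≠ ⊥) :
    ∃ W : ValuationSubring (MFU ℓ κ P N0), RamV R κ W ∧
      (∀ W0 : ValuationSubring Ω, W0.comap (algebraMap (MFU ℓ κ P N0) Ω) = W → P W0) ∧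
      (∀ σ z, s σ z ∈ W ↔ z ∈ W) ∧
      (∀ γ ∈ Cen R s, ∀ z, γ z ∈ W ↔ z ∈ W) ∧
      (∀ γ ∈ Cen R s, γ ≠ 1 → ∀ W' : ValuationSubring (MFU ℓ κ P N0),
        (∀ c : κ, algebraMap κ _ c ∈ W') → W' ≠ ⊤ → (∀ z, γ z ∈ W' ↔ z ∈ W') → W' = W) ∧
      ∀ H : Subgroup (κ ≃ₐ[k] κ), H.index ≠ 0 → ∀ W' : ValuationSubring (MFU ℓ κ P N0),
        RamV R κ W' → (∀ σ ∈ H, ∀ z, s σ z ∈ W' ↔ z ∈ W') → W' = W := by
  classical
  have hka : Algebra.IsAlgebraic k κ := IsAlgClosure.isAlgebraic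
  -- one level
  have key : ∀ (N : IntermediateField R Ω) (hN : SL ℓ k κ x P N0 N),
      Cen R (secN h.rat hs hN) ≠ ⊥ → ∃ Q : ValuationSubring (MF ℓ κ N), RamV R κ Q ∧
      (∀ σ z, secN h.rat hs hN σ z ∈ Q ↔ z ∈ Q) ∧
      (∀ γ ∈ Cen R (secN h.rat hs hN), ∀ z, γ z ∈ Q ↔ z ∈ Q) ∧
      ∀ γ ∈ Cen R (secN h.rat hs hN), γ ≠ 1 → ∀ Q' : ValuationSubring (MF ℓ κ N),
        (∀ c : κ, algebraMap κ _ c ∈ Q') → Q' ≠ ⊤ → (∀ z, γ z ∈ Q' ↔ z ∈ Q') → Q' = Q := by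
    intro N hN hc
    obtain ⟨hNM, ε, ι, hC⟩ := gcovN h hN
    exact afsV (hRig N hN hNM) hC (secN_secR h hs hN) hc
  -- elements of the centraliser on the levels
  have hdown : ∀ (γ : MFU ℓ κ P N0 ≃ₐ[R] MFU ℓ κ P N0), γ ∈ Cen R s →
      ∀ (N : IntermediateField R Ω) (hN : SL ℓ k κ x P N0 N) (c : MF ℓ κ N ≃ₐ[R] MF ℓ κ N),
      (∀ y, inU h.rat hN (c y) = γ (inU h.rat hN y)) → c ∈ Cen R (secN h.rat hs hN) := by
    rintro γ ⟨H, hH, hγ⟩ N hN c hc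
    exact ⟨H, hH, cen_down h hs hN hγ hc⟩
  -- restrictions are nontrivial on levels with a given element
  have hnt : ∀ (γ : MFU ℓ κ P N0 ≃ₐ[R] MFU ℓ κ P N0) (z : MFU ℓ κ P N0), γ z ≠ z →
      ∀ (N : IntermediateField R Ω) (hN : SL ℓ k κ x P N0 N), (z : Ω) ∈ N →
      ∀ c : MF ℓ κ N ≃ₐ[R] MF ℓ κ N, (∀ y, inU h.rat hN (c y) = γ (inU h.rat hN y)) → c ≠ 1 := by
    rintro γ z hz N hN hzN c hc rfl
    exact hz (hc ⟨(z : Ω), leMF h hN hzN⟩).symm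
  obtain ⟨γ₀, hγ₀, hγ₀1⟩ : ∃ γ ∈ Cen R s, γ ≠ 1 := by
    by_contra hno
    push Not at hno
    exact hcen ((Subgroup.eq_bot_iff_forall _).2 hno)
  obtain ⟨z₀, hz₀⟩ : ∃ z, γ₀ z ≠ z := by
    by_contra hno
    push Not at hno
    exact hγ₀1 (AlgEquiv.ext hno)
  obtain ⟨N1, hN1, hz₀N1, -⟩ := exists_SL k hka h.rat h.lev h.conj N0 h.lev (N0_le' h) (z₀ : Ω) z₀.2
  choose rst hrst using fun (N : IntermediateField R Ω) (hN : SL ℓ k κ x P N0 N) => restG h hN γ₀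
  have hrc : ∀ N hN, rst N hN ∈ Cen R (secN h.rat hs hN) := fun N hN =>
    hdown γ₀ hγ₀ N hN _ (hrst N hN)
  have hr1 : ∀ N hN, N1 ≤ N → rst N hN ≠ 1 := fun N hN hle =>
    hnt γ₀ z₀ hz₀ N hN (hle hz₀N1) _ (hrst N hN)
  choose Q hQ hQs hQc hQu using fun (N : IntermediateField R Ω) (hN : SL ℓ k κ x P N0 N)
    (hle : N1 ≤ N) => key N hN (fun hb => hr1 N hN hle ((Subgroup.eq_bot_iff_forall _).1 hb _
      (hrc N hN)))
  obtain ⟨W, hW⟩ := glue hka h hN1 Q (by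
    intro N N' hN hN' hle hle' hNN y hy hy'
    have hm : MF ℓ κ N ≤ MF ℓ κ N' := fun z hz => Mem_mono hNN hz
    have h1 : (Q N' hN' hle').comap
        (IntermediateField.inclusion hm : MF ℓ κ N →+* MF ℓ κ N') = Q N hN hle := by
      refine hQu N hN hle _ (hrc N hN) (hr1 N hN hle) _ (fun c => (hQ N' hN' hle').con c) ?_ ?_
      · intro htop
        apply (hQ N' hN' hle').ne_top
        letI : Algebra (MF ℓ κ N) (MF ℓ κ N') := (IntermediateField.inclusion hm).toAlgebra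
        haveI : IsScalarTower R (MF ℓ κ N) (MF ℓ κ N') := IsScalarTower.of_algebraMap_eq fun r => rfl
        haveI : Algebra.IsAlgebraic (MF ℓ κ N) (MF ℓ κ N') :=
          Algebra.IsAlgebraic.tower_top (K := R) _
        refine eq_top_of_alg (F := MF ℓ κ N) (Q N' hN' hle') fun y => ?_
        have h1 : y ∈ (Q N' hN' hle').comap
            (IntermediateField.inclusion hm : MF ℓ κ N →+* MF ℓ κ N') := by
          rw [htop]; trivial
        exact h1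
      · intro z
        change IntermediateField.inclusion hm (rst N hN z) ∈ Q N' hN' hle' ↔
          IntermediateField.inclusion hm z ∈ Q N' hN' hle'
        have h2 : IntermediateField.inclusion hm (rst N hN z) =
            rst N' hN' (IntermediateField.inclusion hm z) := by
          apply inU_inj h.rat hN'
          rw [hrst]
          have h3 : ∀ w : MF ℓ κ N, inU h.rat hN' (IntermediateField.inclusion hm w) =
            inU h.rat hN w := fun w => Subtype.ext rfl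
          rw [h3, h3, hrst]
        rw [h2]
        exact hQc N' hN' hle' _ (hrc N' hN') _
    have h2 : (⟨y, hy⟩ : MF ℓ κ N) ∈ (Q N' hN' hle').comap
        (IntermediateField.inclusion hm : MF ℓ κ N →+* MF ℓ κ N') ↔
        (⟨y, hy⟩ : MF ℓ κ N) ∈ Q N hN hle := by rw [h1]
    exact h2.symm)
  have hWm : ∀ (N : IntermediateField R Ω) (hN : SL ℓ k κ x P N0 N) (hle : N1 ≤ N)
      (w : MF ℓ κ N), inU h.rat hN w ∈ W ↔ w ∈ Q N hN hle := by
    intro N hN hle w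
    rw [← hW N hN hle]
    rfl
  have hex : ∀ a b : MFU ℓ κ P N0, ∃ (N : IntermediateField R Ω) (hN : SL ℓ k κ x P N0 N),
      N1 ≤ N ∧ ∃ a' b' : MF ℓ κ N, (a : Ω) ∈ N ∧ (b : Ω) ∈ N ∧ inU h.rat hN a' = a ∧
        inU h.rat hN b' = b := by
    intro a b
    obtain ⟨N, hN, hle, ha, hb⟩ := exSL2 hka h N1 hN1 a b
    exact ⟨N, hN, hle, ⟨_, leMF h hN ha⟩, ⟨_, leMF h hN hb⟩, ha, hb, rfl, rfl⟩
  have hWram : RamV R κ W := by
    refine ⟨fun c => ?_, ?_⟩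
    · have h1 := (hQ N1 hN1 le_rfl).con c
      rw [← hWm N1 hN1 le_rfl] at h1
      exact h1
    · obtain ⟨z, hz0, hzt⟩ := (hQ N1 hN1 le_rfl).ram
      refine ⟨inU h.rat hN1 z, (_root_.map_ne_zero _).2 hz0, fun t ht hu => hzt t ht ?_⟩
      rw [← hW N1 hN1 le_rfl, comap_isU]
      exact hu
  have hWs : ∀ σ z, s σ z ∈ W ↔ z ∈ W := by
    intro σ z
    obtain ⟨N, hN, hle, z', -, -, -, hz', -⟩ := hex z z
    rw [← hz', ← secN_inU h.rat hs hN, hWm N hN hle, hWm N hN hle]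
    exact hQs N hN hle σ z'
  have hWc : ∀ γ ∈ Cen R s, ∀ z, γ z ∈ W ↔ z ∈ W := by
    intro γ hγ z
    obtain ⟨N, hN, hle, z', -, -, -, hz', -⟩ := hex z z
    obtain ⟨c, hc⟩ := restG h hN γ
    rw [← hz', ← hc, hWm N hN hle, hWm N hN hle]
    exact hQc N hN hle c (hdown γ hγ N hN c hc) z'
  refine ⟨W, hWram, ?_, hWs, hWc, ?_, ?_⟩
  · -- `W` is not a cusp
    intro W0 hW0
    by_contra hP0
    obtain ⟨H, hH, hγH⟩ := hγ₀
    obtain ⟨b, hb⟩ := hMu H hH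
    have hpow : γ₀ ^ (ℓ ^ b) = 1 := by
      ext u
      change (((γ₀ ^ (ℓ ^ b)) u : MFU ℓ κ P N0) : Ω) = (u : Ω)
      congr 1
      obtain ⟨N, hN, hle, u', -, -, -, hu', -⟩ := hex u u
      obtain ⟨hNM, ε, ι, hC⟩ := gcovN h hN
      haveI := hC.gal
      haveI : Normal R (MF ℓ κ N) := hC.gal.to_normal
      obtain ⟨WN, hWN, -⟩ := hC.loc (Q N hN hle) (hQ N hN hle).con (hQ N hN hle).ne_top
      obtain ⟨-, ρ, hρ, hρ1⟩ := hC.loc' WN
      obtain ⟨m, hm⟩ := hC.lev.card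
      have hcW : Fixes WN (rst N hN) := fixes_V hC (by
        rw [hWN]
        exact hQc N hN hle _ (hrc N hN))
      obtain ⟨ζ, hζ0, hζ⟩ := exists_chi h.rat hcW (ne_of_ord hρ1)
      have hζm := chi_root h.rat hC.lev hm hcW hρ (ne_of_ord hρ1) hζ
      have hζb : ζ ^ (ℓ ^ b) = 1 := by
        refine hb m ζ hζm fun σ hσ => ?_
        refine chi_of_com h.rat (secN_secR h hs hN) (ne_of_ord hρ1) ?_ hcW hζ
          (cen_down h hs hN hγH (hrst N hN) σ hσ)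
        refine fixes_of_O WN (secN h.rat hs hN σ) (σ : κ ≃+* κ)
          (fun c => (secN_gsec h.rat hs hN).const σ c) fun z => ?_
        rw [hWN]
        exact hQs N hN hle σ z
      have h1 := chi_pow h.rat hcW (ne_of_ord hρ1) hζ (ℓ ^ b)
      rw [hζb] at h1
      have h2 : (rst N hN) ^ (ℓ ^ b) = 1 :=
        chi_inj h.rat hC.lev (Fixes.pow hcW _) hρ hρ1 h1
      have h3 : ∀ (n : ℕ) (w : MF ℓ κ N), inU h.rat hN (((rst N hN) ^ n) w) =
          (γ₀ ^ n) (inU h.rat hN w) := by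
        intro n
        induction n with
        | zero => intro w; rfl
        | succ n ih =>
          intro w
          rw [pow_succ, pow_succ]
          change inU h.rat hN (((rst N hN) ^ n) (rst N hN w)) = (γ₀ ^ n) (γ₀ (inU h.rat hN w))
          rw [ih, hrst]
      rw [← hu', ← h3, h2]
      rfl
    obtain ⟨n, hn1, hn2⟩ := exists_order b γ₀ hpow hγ₀1
    apply hn2
    refine tors_cusp hka h hWram.con hWram.ne_top W0 hW0 hP0 _ hn1 fun z => ?_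
    exact hWc _ (pow_mem (show γ₀ ∈ Cen R s from ⟨H, hH, hγH⟩) _) z
  · -- uniqueness
    intro γ hγ hγ1 W' hW'1 hW'2 hW'3
    obtain ⟨z, hz⟩ : ∃ z, γ z ≠ z := by
      by_contra hno
      push Not at hno
      exact hγ1 (AlgEquiv.ext hno)
    ext y
    obtain ⟨N, hN, hle, z', y', hzN, hyN, hz', hy'⟩ := hex z y
    obtain ⟨c, hc⟩ := restG h hN γ
    have h1 : W'.comap (inU h.rat hN : MF ℓ κ N →+* MFU ℓ κ P N0) = Q N hN hle := by
      refine hQu N hN hle c (hdown γ hγ N hN c hc) (hnt γ z hz N hN hzN c hc) _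
        (fun c => hW'1 c) (top_down h hN hW'2) fun w => ?_
      change inU h.rat hN (c w) ∈ W' ↔ inU h.rat hN w ∈ W'
      rw [hc]
      exact hW'3 _
    rw [← hW N hN hle] at h1
    have h2 : y' ∈ W'.comap (inU h.rat hN : MF ℓ κ N →+* MFU ℓ κ P N0) ↔
        y' ∈ W.comap (inU h.rat hN : MF ℓ κ N →+* MFU ℓ κ P N0) := by rw [h1]
    rw [← hy']
    exact h2
  · -- uniqueness for the section
    intro H hH W' hW' hsW'
    obtain ⟨z, hz0, hzt⟩ := hW'.ram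
    ext y
    obtain ⟨N, hN, hle, z', y', hzN, hyN, hz', hy'⟩ := hex z y
    obtain ⟨hNM, ε, ι, hC⟩ := gcovN h hN
    obtain ⟨WN, hWN, -⟩ := hC.loc (W'.comap (inU h.rat hN : MF ℓ κ N →+* MFU ℓ κ P N0))
      (fun c => hW'.con c) (top_down h hN hW'.ne_top)
    have hram : IsRam ε ι x WN := by
      rw [ramV_place hC WN, hWN]
      refine ⟨fun c => hW'.con c, z', ?_, fun t ht hu => hzt t ht ?_⟩
      · rintro rfl
        rw [map_zero] at hz'
        exact hz0 hz'.symm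
      · rw [comap_isU, map_div₀] at hu
        have h5 : (inU h.rat hN : MF ℓ κ N →+* MFU ℓ κ P N0) z' = z := hz'
        rw [h5] at hu
        exact hu
    obtain ⟨c, -, hc1, hc⟩ := ram_stab hC hram
    have hcC : c ∈ Cen R (secN h.rat hs hN) := by
      refine cen_of_fixes hC (secN_secR h hs hN) H hH WN (fun σ hσ => ?_) hc
      refine fixes_of_O WN (secN h.rat hs hN σ) (σ : κ ≃+* κ)
        (fun c => (secN_gsec h.rat hs hN).const σ c) fun w => ?_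
      rw [hWN]
      change inU h.rat hN (secN h.rat hs hN σ w) ∈ W' ↔ inU h.rat hN w ∈ W'
      rw [secN_inU]
      exact hsW' σ hσ _
    have h1 : W'.comap (inU h.rat hN : MF ℓ κ N →+* MFU ℓ κ P N0) = Q N hN hle := by
      refine hQu N hN hle c hcC hc1 _ (fun c => hW'.con c) (top_down h hN hW'.ne_top) fun w => ?_
      rw [← hWN]
      exact fix_O (W := WN) (τ := (c : MF ℓ κ N ≃+* MF ℓ κ N)) hc w
    rw [← hW N hN hle] at h1
    have h2 : y' ∈ W'.comap (inU h.rat hN : MF ℓ κ N →+* MFU ℓ κ P N0) ↔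
        y' ∈ W.comap (inU h.rat hN : MF ℓ κ N →+* MFU ℓ κ P N0) := by rw [h1]
    rw [← hy']
    exact h2

/-- a valuation ring over `P` belongs to a place with a uniformiser in `N0` -/
theorem placeU (h : Hyp ℓ κ x B P N0) {W : ValuationSubring (MFU ℓ κ P N0)}
    (hκ : ∀ c : κ, algebraMap κ _ c ∈ W) (htop : W ≠ ⊤)
    (hP : ∀ W0 : ValuationSubring Ω, W0.comap (algebraMap (MFU ℓ κ P N0) Ω) = W → P W0) :
    ∃ (hNM : N0 ≤ MFU ℓ κ P N0) (Pl : Place κ (MFU ℓ κ P N0)), Pl.O = W ∧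
      ∃ ρ ∈ IntermediateField.restrict hNM, Pl.ord ρ = 1 := by
  have hNM : N0 ≤ MFU ℓ κ P N0 := fun z hz => N0_le' h z hz
  obtain ⟨W0, hW0⟩ := a_extv (MFU ℓ κ P N0) Ω W
  have hmem : ∀ y : MFU ℓ κ P N0, (y : Ω) ∈ W0 ↔ y ∈ W := by
    intro y
    rw [← hW0]
    rfl
  have hκ0 : ∀ c : κ, algebraMap κ Ω c ∈ W0 := fun c => (hmem (algebraMap κ _ c)).2 (hκ c)
  have htop0 : W0 ≠ ⊤ := by
    rintro rfl
    apply htop
    ext y
    exact ⟨fun _ => trivial, fun _ => (hmem y).1 trivial⟩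
  obtain ⟨π, hπ⟩ := HU_lev (κ := κ) h.rat h.lev W0 hκ0 htop0
  obtain ⟨Pl, hPl, hord⟩ := place (κ := κ) hNM W0 hκ0 hπ
    (fun z hz => hz.2 W0 hκ0 htop0 (hP W0 hW0))
  refine ⟨hNM, Pl, by rw [hPl, hW0], ⟨π, hNM hπ.mem⟩, ?_, hord _ 1 (by rw [zpow_one])⟩
  exact (IntermediateField.mem_restrict hNM _).2 hπ.mem

/-- the stabiliser of the valuation ring of a point of `U` is contained in the centraliser -/
theorem cenU (h : Hyp ℓ κ x B P N0) (hs : GSec k κ R (MFU ℓ κ P N0) x s)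
    (H : Subgroup (κ ≃ₐ[k] κ)) (hH : H.index ≠ 0) {W : ValuationSubring (MFU ℓ κ P N0)}
    (hκ : ∀ c : κ, algebraMap κ _ c ∈ W) (htop : W ≠ ⊤)
    (hP : ∀ W0 : ValuationSubring Ω, W0.comap (algebraMap (MFU ℓ κ P N0) Ω) = W → P W0)
    (hsW : ∀ σ ∈ H, ∀ z, s σ z ∈ W ↔ z ∈ W) {γ : MFU ℓ κ P N0 ≃ₐ[R] MFU ℓ κ P N0}
    (hγ : ∀ z, γ z ∈ W ↔ z ∈ W) : γ ∈ Cen R s := by
  obtain ⟨hNM, Pl, hPl, ρ, hρ, hρ1⟩ := placeU h hκ htop hP
  haveI := MFU_normal h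
  refine cen_of_fixes' h.rat (lev_restrict hNM h.lev) ⟨hs.const, hs.fixx⟩ H hH hρ hρ1
    (fun σ hσ => ?_) ?_
  · refine fixes_of_O Pl (s σ) (σ : κ ≃+* κ) (fun c => hs.const σ c) fun z => ?_
    rw [hPl]
    exact hsW σ hσ z
  · refine fixes_of_O Pl (γ : MFU ℓ κ P N0 ≃+* MFU ℓ κ P N0) (RingEquiv.refl κ) (fun c => ?_)
      fun z => ?_
    · change γ (algebraMap κ _ c) = algebraMap κ _ c
      rw [IsScalarTower.algebraMap_apply κ R (MFU ℓ κ P N0)]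
      exact γ.commutes _
    · rw [hPl]
      exact hγ z

/-- a ramified valuation ring has a nontrivial stabiliser -/
theorem stabU (hka : Algebra.IsAlgebraic k κ) (h : Hyp ℓ κ x B P N0)
    {W : ValuationSubring (MFU ℓ κ P N0)} (hW : RamV R κ W) :
    ∃ γ : MFU ℓ κ P N0 ≃ₐ[R] MFU ℓ κ P N0, γ ≠ 1 ∧ ∀ z, γ z ∈ W ↔ z ∈ W := by
  obtain ⟨z, hz0, hzt⟩ := hW.ram
  obtain ⟨N, hN, hzN, -⟩ := exists_SL k hka h.rat h.lev h.conj N0 h.lev (N0_le' h) (z : Ω) z.2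
  obtain ⟨hNM, ε, ι, hC⟩ := gcovN h hN
  obtain ⟨WN, hWN, -⟩ := hC.loc (W.comap (inU h.rat hN : MF ℓ κ N →+* MFU ℓ κ P N0))
    (fun c => hW.con c) (top_down h hN hW.ne_top)
  have hram : IsRam ε ι x WN := by
    rw [ramV_place hC WN, hWN]
    refine ⟨fun c => hW.con c, ⟨(z : Ω), hNM hzN⟩, ?_, fun t ht hu => hzt t ht ?_⟩
    · intro h0
      exact hz0 (Subtype.ext (congrArg (fun w : MF ℓ κ N => (w : Ω)) h0))
    · rw [comap_isU] at hu
      exact hu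
  obtain ⟨c, -, hc1, hc⟩ := ram_stab hC hram
  obtain ⟨c', hc'⟩ := liftG h hN c
  obtain ⟨γ, hγ1, hγ⟩ := conjG h hN W (W.comap (c' : MFU ℓ κ P N0 →+* MFU ℓ κ P N0)) (by
    ext w
    change inU h.rat hN w ∈ W ↔ c' (inU h.rat hN w) ∈ W
    rw [hc']
    have h1 : ∀ v : MF ℓ κ N, inU h.rat hN v ∈ W ↔ v ∈ WN.O := by
      intro v
      rw [hWN]
      rfl
    rw [h1, h1]
    exact (fix_O (W := WN) (τ := (c : MF ℓ κ N ≃+* MF ℓ κ N)) hc w).symm)
  have hinv : ∀ w, γ (γ⁻¹ w) = w := fun w => γ.apply_symm_apply w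
  refine ⟨c' * γ⁻¹, ?_, fun w => ?_⟩
  · intro he
    apply hc1
    ext w
    change ((c w : MF ℓ κ N) : Ω) = (w : Ω)
    congr 1
    apply inU_inj h.rat hN
    rw [← hc']
    have h1 : γ⁻¹ (inU h.rat hN w) = inU h.rat hN w := by
      have h2 := hγ1 w
      apply γ.injective
      rw [hinv, h2]
    have h3 : (c' * γ⁻¹) (inU h.rat hN w) = inU h.rat hN w := by rw [he]; rfl
    change c' (γ⁻¹ (inU h.rat hN w)) = _ at h3
    rwa [h1] at h3
  · change c' (γ⁻¹ w) ∈ W ↔ w ∈ W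
    have h1 := hγ (γ⁻¹ w)
    rw [hinv] at h1
    exact h1

/-- sections of ramification points in `U` have a nontrivial centraliser -/
theorem cuspU (h : Hyp ℓ κ x B P N0) (hs : GSec k κ R (MFU ℓ κ P N0) x s)
    (H : Subgroup (κ ≃ₐ[k] κ)) (hH : H.index ≠ 0) {W : ValuationSubring (MFU ℓ κ P N0)}
    (hW : RamV R κ W)
    (hP : ∀ W0 : ValuationSubring Ω, W0.comap (algebraMap (MFU ℓ κ P N0) Ω) = W → P W0)
    (hsW : ∀ σ ∈ H, ∀ z, s σ z ∈ W ↔ z ∈ W) :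
    ∃ γ ∈ Cen R s, γ ≠ 1 ∧ ∀ z, γ z ∈ W ↔ z ∈ W := by
  have hka : Algebra.IsAlgebraic k κ := IsAlgClosure.isAlgebraic
  obtain ⟨γ, hγ1, hγ⟩ := stabU (k := k) hka h hW
  exact ⟨γ, cenU h hs H hH hW.con hW.ne_top hP hsW hγ, hγ1, hγ⟩

end main

end Pool.Agent.H889.SY
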