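import Pool.Agent.H889.SY.Fixq
import Pool.Agent.H889.PS.Loc
import Pool.Agent.H889.PS.Gex
import Pool.Graph.R_seed8.R925.Q.Afs

/-! An automorphism of `M` over `N₀` which commutes with a lift of Frobenius is trivial. -/

set_option autoImplicit false
set_option linter.all false

open Polynomial FF

namespace Pool.Agent.H889.SY

open Pool.Agent.Y157.PS Pool.Agent.H889.PS
open Pool.Agent.R925.Q (surjq Lift LD LD_gal LD_fix LD_phi phi_R frob_rou')

section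

variable {κ R M : Type} [Field κ] [Field R] [Field M] [Algebra κ R] [Algebra R M] [Algebra κ M]
  [IsScalarTower κ R M] {x : R} {k : Type} [Field k] [Algebra k κ]

open Pool.Agent.Y748.PS in
/-- a level inside `LD δ`, stable under `φ`, with given elements -/
theorem exists_levelD {ℓ : ℕ} [Fact ℓ.Prime] [CharZero κ] {B : Finset κ} {ε : κ → ℕ} {ι : ℕ}
    {N₀ : IntermediateField R M}
    (hk : Algebra.IsAlgebraic k κ) (hC : GCov ℓ κ R M x B ε ι N₀) {φ : M ≃+* M} {φ₀ : κ ≃ₐ[k] κ}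
    (h : Lift κ M (algebraMap R M x) φ (φ₀ : κ ≃+* κ)) {δ : M ≃ₐ[R] M}
    (hδ : ∀ z, δ (φ z) = φ (δ z)) {z₁ : M} (hz₁ : z₁ ∈ LD δ) (hz₂ : N₀ ≤ LD δ) :
    ∃ N : IntermediateField R M, Lev ℓ N ∧ z₁ ∈ N ∧ N₀ ≤ N ∧ N ≤ LD δ ∧
      ∀ z, φ z ∈ N ↔ z ∈ N := by
  haveI := hC.gal
  have hR := hC.rat
  haveI : CharZero R := charZero_of_injective_algebraMap (algebraMap κ R).injective
  have hM : Algebra.IsAlgebraic R M := inferInstance
  haveI := hC.lev.fin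
  obtain ⟨α, hα⟩ := Field.exists_primitive_element R N₀
  obtain ⟨T₁, hT₁, hm₁, hs₁⟩ := exists_orbit (k := k) hk hR hM z₁
  obtain ⟨T₂, hT₂, hm₂, hs₂⟩ := exists_orbit (k := k) hk hR hM (α : M)
  obtain ⟨T, hT⟩ : ∃ T : Set M, T = {w | (w ∈ T₁ ∨ w ∈ T₂) ∧ w ∈ LD δ} := ⟨_, rfl⟩
  have hTm : ∀ w, w ∈ T ↔ (w ∈ T₁ ∨ w ∈ T₂) ∧ w ∈ LD δ := fun w => by rw [hT]; rfl
  have hTfin : T.Finite := (hT₁.union hT₂).subset fun w hw => ((hTm w).1 hw).1
  have hTgal : ∀ g : M ≃ₐ[R] M, ∀ w ∈ T, g w ∈ T := by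
    intro g w hw
    rw [hTm] at hw ⊢
    have h1 : ∀ c : k, (g : M ≃+* M) (algebraMap κ M (algebraMap k κ c)) =
      algebraMap κ M (algebraMap k κ c) := fun c => Pool.Agent.Y748.PS.gal_const g _
    have h2 : (g : M ≃+* M) (algebraMap R M x) = algebraMap R M x := g.commutes x
    refine ⟨?_, LD_gal hw.2 g⟩
    rcases hw.1 with h | h
    · exact Or.inl (hs₁ (g : M ≃+* M) h1 h2 w h)
    · exact Or.inr (hs₂ (g : M ≃+* M) h1 h2 w h)
  have hTs : ∀ (ψ : M ≃+* M) (ψ₀ : κ ≃ₐ[k] κ), Lift κ M (algebraMap R M x) ψ (ψ₀ : κ ≃+* κ) →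
      (∀ z, δ (ψ z) = ψ (δ z)) → ∀ w ∈ T, ψ w ∈ T := by
    intro ψ ψ₀ hψ hψδ w hw
    rw [hTm] at hw ⊢
    have h1 : ∀ c : k, ψ (algebraMap κ M (algebraMap k κ c)) =
      algebraMap κ M (algebraMap k κ c) := fun c => by
        rw [hψ.con]
        congr 1
        exact ψ₀.commutes c
    refine ⟨?_, LD_phi hR hψ hψδ hw.2⟩
    rcases hw.1 with h | h
    · exact Or.inl (hs₁ ψ h1 hψ.fix w h)
    · exact Or.inr (hs₂ ψ h1 hψ.fix w h)
  haveI : Finite T := hTfin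
  obtain ⟨N, hN⟩ : ∃ N, N = IntermediateField.adjoin R T := ⟨_, rfl⟩
  have hTN : ∀ w ∈ T, w ∈ N := fun w hw => by
    rw [hN]
    exact IntermediateField.subset_adjoin R T hw
  haveI hfin : FiniteDimensional R N := by
    rw [hN]
    exact IntermediateField.finiteDimensional_adjoin fun w _ => (hM.isAlgebraic w).isIntegral
  have hnorm : Normal R N := by
    rw [IntermediateField.normal_iff_forall_map_le']
    intro g
    rw [hN, IntermediateField.adjoin_map, IntermediateField.adjoin_le_iff]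
    rintro _ ⟨w, hw, rfl⟩
    exact IntermediateField.subset_adjoin R T (hTgal g w hw)
  haveI : Algebra.IsSeparable R N := inferInstance
  have hgal : IsGalois R N := ⟨⟩
  have hNs : ∀ (ψ : M ≃+* M) (ψ₀ : κ ≃ₐ[k] κ), Lift κ M (algebraMap R M x) ψ (ψ₀ : κ ≃+* κ) →
      (∀ z, δ (ψ z) = ψ (δ z)) → ∀ z ∈ N, ψ z ∈ N := by
    intro ψ ψ₀ hψ hψδ z hz
    rw [hN] at hz ⊢
    induction hz using IntermediateField.adjoin_induction with
    | mem y hy => exact IntermediateField.subset_adjoin R T (hTs ψ ψ₀ hψ hψδ y hy)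
    | algebraMap c =>
      obtain ⟨c', hc'⟩ := phi_R hR ψ _ hψ.con hψ.fix c
      rw [hc']
      exact (IntermediateField.adjoin R T).algebraMap_mem c'
    | add a b _ _ ha hb => rw [map_add]; exact add_mem ha hb
    | inv a _ ha => rw [map_inv₀]; exact inv_mem ha
    | mul a b _ _ ha hb => rw [map_mul]; exact mul_mem ha hb
  have hαN : (α : M) ∈ N := hTN _ ((hTm _).2 ⟨Or.inr hm₂, hz₂ α.2⟩)
  refine ⟨N, lev_of_galois hC.pow N hfin hgal, ?_, ?_, ?_, fun z => ⟨fun h' => ?_, hNs φ φ₀ h hδ z⟩⟩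
  · exact hTN _ ((hTm _).2 ⟨Or.inl hm₁, hz₁⟩)
  · intro y hy
    have h2 : (⟨y, hy⟩ : N₀) ∈ IntermediateField.adjoin R {α} := by rw [hα]; trivial
    have h3 : (IntermediateField.adjoin R {α}).map N₀.val ≤ N := by
      rw [IntermediateField.adjoin_map, IntermediateField.adjoin_le_iff]
      rintro _ ⟨w, hw, rfl⟩
      rw [Set.mem_singleton_iff] at hw
      rw [hw]
      exact hαN
    exact h3 ⟨⟨y, hy⟩, h2, rfl⟩
  · rw [hN, IntermediateField.adjoin_le_iff]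
    exact fun w hw => ((hTm w).1 hw).2
  · have := hNs φ.symm φ₀.symm h.symm (fun z => by
      apply φ.injective
      rw [← hδ, RingEquiv.apply_symm_apply, RingEquiv.apply_symm_apply]) _ h'
    rwa [RingEquiv.symm_apply_apply] at this

end

/-- a bound for the exponents -/
theorem exists_E {ℓ : ℕ} {κ R M : Type} [Field κ] [Field R] [Field M] [Algebra κ R] [Algebra R M]
    [Algebra κ M] [IsScalarTower κ R M] {x : R} {B : Finset κ} {ε : κ → ℕ} {ι : ℕ}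
    {N₀ : IntermediateField R M} (hC : GCov ℓ κ R M x B ε ι N₀) :
    ∃ E : ℕ, (∀ a, ε a ≤ E) ∧ ι ≤ E := by
  classical
  refine ⟨B.sup ε + ι, fun a => ?_, by omega⟩
  by_cases ha : a ∈ B
  · have := Finset.le_sup (f := ε) ha
    omega
  · rw [hC.supp a ha]
    exact Nat.zero_le _

open Pool.Agent.Y748.PS in
/-- **rigidity** -/
theorem rig {ℓ : ℕ} [Fact ℓ.Prime] {k κ R M : Type} [Field k] [Field κ] [IsAlgClosed κ]
    [CharZero κ] [Field R] [Field M] [Algebra k κ] [Algebra.IsAlgebraic k κ]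
    [Algebra κ R] [Algebra R M] [Algebra κ M] [IsScalarTower κ R M] {x : R}
    {B : Finset κ} {ε : κ → ℕ} {ι : ℕ} {N₀ : IntermediateField R M}
    (hC : GCov ℓ κ R M x B ε ι N₀)
    (F : Type) [Field F] (V : ValuationSubring κ) (r : V →+* F) (hr : Res V r) (hGood : Good V B)
    (hl : IsU V (ℓ : κ)) (D : Disc ℓ V r)
    (p : ℕ) [Fact p.Prime] [CharP F p] (q a : ℕ) (ha : 0 < a) (hq : q = p ^ a)
    (hF : ∀ c : F, ∃ m : ℕ, 0 < m ∧ c ^ (q ^ m) = c)
    (O : ValuationSubring M) (hO : Gauss V (algebraMap R M x) O)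
    (hu : ∀ O' : ValuationSubring M, Gauss V (algebraMap R M x) O' → O' = O)
    (φ : M ≃+* M) (φ₀ : κ ≃ₐ[k] κ) (hlift : Lift κ M (algebraMap R M x) φ (φ₀ : κ ≃+* κ))
    (hφV : ∀ c, φ₀ c ∈ V ↔ c ∈ V) (hφq : ∀ c ∈ V, φ₀ c - c ^ q ∈ V.nonunits)
    (δ : M ≃ₐ[R] M) (hδ : ∀ z, δ (φ z) = φ (δ z)) (hδN : ∀ z ∈ N₀, δ z = z) : δ = 1 := by
  have hp := (Fact.out : p.Prime)
  haveI : CharZero R := charZero_of_injective_algebraMap (algebraMap κ R).injective
  haveI := hC.gal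
  haveI := hC.lev.gal
  obtain ⟨E, hεE, hιE⟩ := exists_E hC
  have hY : N₀ ≤ LD δ := by
    intro z hz g
    apply hδN
    have h1 := AlgEquiv.restrictNormal_commutes g N₀ (⟨z, hz⟩ : N₀)
    have h2 : g z = algebraMap N₀ M (g.restrictNormal N₀ ⟨z, hz⟩) := h1.symm
    rw [h2]
    exact (g.restrictNormal N₀ ⟨z, hz⟩).2
  have key : ∀ h : M, h ^ ℓ ∈ LD δ → δ h = h := by
    intro h hh
    by_cases h0 : h = 0
    · rw [h0, map_zero]
    obtain ⟨N, hLev, hm1, hYN, hNL, hNs⟩ := exists_levelD (k := k) inferInstance hC hlift hδ hh hY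
    obtain ⟨g, m, w, hg0, hgm, hw, heq⟩ := surjq ℓ M N.toSubfield φ q
      (by rw [hq]; exact pow_pos hp.pos a) hNs
      (divs hC N hLev hYN) (fins hC N hLev hYN)
      (fixq hC E hεE hιE F V r hr hGood hl D p q a ha hq
        hF O hO hu N hLev φ (φ₀ : κ ≃+* κ) hlift.con hlift.fix hNs hφV
        hφq) h 1 h0 (by rw [pow_one]; exact hm1)
    have hgN : δ (g ^ (ℓ ^ m)) = g ^ (ℓ ^ m) := LD_fix (hNL hgm)
    have h3 : (δ g / g) ^ (ℓ ^ m) = 1 := by
      rw [div_pow, ← map_pow, hgN, div_self (pow_ne_zero _ hg0)]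
    obtain ⟨c, hc, hc'⟩ := rou_const (κ := κ) (pow_pos (Fact.out : ℓ.Prime).pos m) h3
    have hδg : δ g = algebraMap κ M c * g := by rw [hc', div_mul_cancel₀ _ hg0]
    have hc0 : c ≠ 0 := by
      rintro rfl
      rw [zero_pow (pow_pos (Fact.out : ℓ.Prime).pos m).ne'] at hc
      exact zero_ne_one hc
    have hφc : (φ₀ : κ ≃+* κ) c = c ^ q := frob_rou' hl hφq hc
    have hcM : algebraMap κ M c ≠ 0 := by
      rw [Ne, FaithfulSMul.algebraMap_eq_zero_iff]; exact hc0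
    rw [heq, map_mul, map_div₀, map_pow, hδ, hδg, map_mul, hlift.con, hφc, map_pow,
      LD_fix (hNL hw), mul_pow, mul_div_mul_left _ _ (pow_ne_zero q hcM)]
  have hroot : ∀ h : M, h ^ ℓ ∈ LD δ → h ∈ LD δ := by
    intro h hh g
    apply key
    rw [← map_pow]
    exact LD_gal hh g
  have hprim : ∃ ζ : R, IsPrimitiveRoot ζ ℓ := by
    haveI : NeZero ℓ := ⟨(Fact.out : ℓ.Prime).ne_zero⟩
    haveI : NeZero (ℓ : κ) := ⟨hl.1⟩
    obtain ⟨ζ, hζ⟩ := HasEnoughRootsOfUnity.exists_primitiveRoot κ ℓ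
    exact ⟨algebraMap κ R ζ, hζ.map_of_injective (algebraMap κ R).injective⟩
  have htop := a_prol ℓ R M hprim hC.gal hC.pow (LD δ) hroot
  apply AlgEquiv.ext
  intro z
  have h1 : z ∈ LD δ := by rw [htop]; trivial
  exact LD_fix h1

section dvr

variable {A k κ R M : Type} [CommRing A] [IsDomain A] [IsDiscreteValuationRing A]
    [Finite (IsLocalRing.ResidueField A)] [Field k] [CharZero k] [Algebra A k] [IsFractionRing A k]
    [Field κ] [Algebra k κ] [Algebra A κ] [IsScalarTower A k κ] [IsAlgClosure k κ]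
    [Field R] [Field M] [Algebra κ R] [Algebra R M] [Algebra κ M] [IsScalarTower κ R M]
    {ℓ : ℕ} [Fact ℓ.Prime] {V : ValuationSubring κ} {x : R} {B : Finset κ} {ε : κ → ℕ} {ι : ℕ}
    {N₀ : IntermediateField R M}

/-- rigidity over a field with a discrete valuation -/
theorem rigA (hVa : ∀ a : A, algebraMap A κ a ∈ V)
    (hVm : ∀ a ∈ IsLocalRing.maximalIdeal A, algebraMap A κ a ∈ V.nonunits)
    (hℓA : IsUnit (ℓ : A)) (hC : GCov ℓ κ R M x B ε ι N₀) (hG : Good V B) {φ₀ : κ ≃ₐ[k] κ} {n : ℕ}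
    (hn : 0 < n) (hφ₀ : Fro V (Nat.card (IsLocalRing.ResidueField A) ^ n) φ₀)
    {φ : M ≃+* M} (hL : Lift κ M (algebraMap R M x) φ (φ₀ : κ ≃+* κ))
    (δ : M ≃ₐ[R] M) (hδ : ∀ z, δ (φ z) = φ (δ z)) (hY : ∀ z ∈ N₀, δ z = z) : δ = 1 := by
  classical
  haveI : IsAlgClosed κ := IsAlgClosure.isAlgClosed k
  haveI : CharZero κ := charZero_of_injective_algebraMap (algebraMap k κ).injective
  haveI : Algebra.IsAlgebraic k κ := IsAlgClosure.isAlgebraic
  obtain ⟨F0, iF0, r, hr, ⟨D⟩⟩ := a_ndisc A k κ V hVa hVm ℓ hℓA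
  obtain ⟨ϖ, hϖ⟩ := IsDiscreteValuationRing.exists_irreducible A
  have hBase : IB ℓ A k κ V ϖ := ⟨hℓA, hVa, hVm, hϖ⟩
  obtain ⟨p, a, hp, hchar, ha, hq, hF, hcop⟩ := res_facts hBase hr
  haveI : Fact p.Prime := ⟨hp⟩
  obtain ⟨O, hO⟩ := gauss_exists hC hr hG D
  have hun : ∀ O' : ValuationSubring M, Gauss V (algebraMap R M x) O' → O' = O :=
    fun O' h => gun hC V hG O' O h hO
  have hF' : ∀ c : F0, ∃ m : ℕ, 0 < m ∧
      c ^ ((Nat.card (IsLocalRing.ResidueField A) ^ n) ^ m) = c := by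
    intro c
    obtain ⟨m, hm, hmc⟩ := hF c
    refine ⟨m, hm, ?_⟩
    rw [← pow_mul, mul_comm n m]
    exact Pool.Agent.Y732.PS.pow_orbit hmc n
  exact rig hC F0 V r hr hG hBase.ell D p
    (Nat.card (IsLocalRing.ResidueField A) ^ n) (a * n) (Nat.mul_pos ha hn)
    (by rw [hq, pow_mul]) hF' O hO hun φ φ₀ hL hφ₀.1 hφ₀.2 δ hδ hY

/-- every subgroup of finite index contains an element which is rigid: the automorphisms of `M` over
`N₀` which commute with a lift of it are trivial -/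
def RigN (k κ : Type) {R M : Type} [Field k] [Field κ] [Field R] [Field M] [Algebra k κ]
    [Algebra κ R] [Algebra R M] [Algebra κ M] (x : R) (N₀ : IntermediateField R M) : Prop :=
  ∀ U : Subgroup (κ ≃ₐ[k] κ), U.index ≠ 0 → ∃ φ₀ ∈ U, ∀ φ : M ≃+* M,
    Lift κ M (algebraMap R M x) φ (φ₀ : κ ≃+* κ) → ∀ δ : M ≃ₐ[R] M, (∀ z, δ (φ z) = φ (δ z)) →
      (∀ z ∈ N₀, δ z = z) → δ = 1

theorem rig_of_dvr (hVa : ∀ a : A, algebraMap A κ a ∈ V)
    (hVm : ∀ a ∈ IsLocalRing.maximalIdeal A, algebraMap A κ a ∈ V.nonunits)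
    (hℓA : IsUnit (ℓ : A)) (hC : GCov ℓ κ R M x B ε ι N₀) (hG : Good V B) : RigN k κ x N₀ := by
  haveI : IsAlgClosed κ := IsAlgClosure.isAlgClosed k
  haveI : Algebra.IsAlgebraic k κ := IsAlgClosure.isAlgebraic
  intro U hU
  obtain ⟨φ₀, hφ₀⟩ := Pool.Agent.Y183.PS.fro A k κ V hVa hVm
  obtain ⟨n, hn, hnU, hfro⟩ := Pool.Agent.R925.Q.exists_frob hφ₀ U hU
  exact ⟨φ₀ ^ n, hnU, fun φ hL δ => rigA hVa hVm hℓA hC hG hn hfro hL δ⟩

end dvr

/-- rigidity over an algebraic extension -/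
theorem rig_up {k κ R M : Type} [Field k] [Field κ] [Algebra k κ] [Field R] [Field M]
    [Algebra κ R] [Algebra R M] [Algebra κ M] {x : R} {N₀ : IntermediateField R M}
    (k₁ : IntermediateField k κ) (h : RigN k₁ κ x N₀) : RigN k κ x N₀ := by
  intro U hU
  let f : (κ ≃ₐ[k₁] κ) →* (κ ≃ₐ[k] κ) :=
    { toFun := AlgEquiv.restrictScalars k
      map_one' := rfl
      map_mul' := fun _ _ => rfl }
  obtain ⟨φ₀, hφ₀, h1⟩ := h (U.comap f) (by
    rw [Subgroup.index_comap]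
    exact fun h0 => hU (Subgroup.index_eq_zero_of_relIndex_eq_zero h0))
  exact ⟨f φ₀, hφ₀, fun φ hL => h1 φ ⟨hL.con, hL.fix⟩⟩

end Pool.Agent.H889.SY
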