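import Pool.Agent.H889.SY.Rig

/-! Tame characters: how the stabiliser of a place acts on uniformisers. -/

set_option autoImplicit false
set_option linter.all false

open Polynomial FF

namespace Pool.Agent.H889.SY

open Pool.Agent.Y157.PS Pool.Agent.H889.PS
open Pool.Agent.Y31.PS (stab_triv)

section basic

variable {κ M : Type} [Field κ] [Field M] [Algebra κ M]

/-- an automorphism which fixes a place preserves its maximal ideal -/
theorem fix_non {W : Place κ M} {τ : M ≃+* M} (h : Fixes W τ) (z : M) :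
    τ z ∈ W.O.nonunits ↔ z ∈ W.O.nonunits := by
  by_cases hz : z = 0
  · rw [hz, map_zero]
  · rw [O_non_iff W ((map_ne_zero_iff τ τ.injective).2 hz), O_non_iff W hz, h]

/-- an automorphism which fixes a place preserves its valuation ring -/
theorem fix_O {W : Place κ M} {τ : M ≃+* M} (h : Fixes W τ) (z : M) :
    τ z ∈ W.O ↔ z ∈ W.O := by
  by_cases hz : z = 0
  · rw [hz, map_zero]
  · rw [O_iff W ((map_ne_zero_iff τ τ.injective).2 hz), O_iff W hz, h]

theorem const_O (W : Place κ M) (c : κ) : algebraMap κ M c ∈ W.O := W.reg_const c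

/-- a constant in the maximal ideal is zero -/
theorem const_non {W : Place κ M} {c : κ} (h : algebraMap κ M c ∈ W.O.nonunits) : c = 0 := by
  by_contra hc
  have h1 := (O_non_iff W ((_root_.map_ne_zero (algebraMap κ M)).2 hc)).1 h
  rw [W.ord_const hc] at h1
  exact lt_irrefl _ h1

theorem ne_of_ord {W : Place κ M} {π : M} (h : W.ord π = 1) : π ≠ 0 := by
  rintro rfl
  rw [W.ord_zero] at h
  exact zero_ne_one h

theorem zero_non' (W : Place κ M) : (0 : M) ∈ W.O.nonunits := nonunits_iff.2 ⟨zero_mem _, Or.inl rfl⟩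

/-- congruence of products -/
theorem mul_cong {W : Place κ M} {a b : M} {c d : κ} (ha : a - algebraMap κ M c ∈ W.O.nonunits)
    (hb : b - algebraMap κ M d ∈ W.O.nonunits) :
    a * b - algebraMap κ M (c * d) ∈ W.O.nonunits := by
  have hbO : b ∈ W.O := by
    have h1 : b = (b - algebraMap κ M d) + algebraMap κ M d := by ring
    rw [h1]
    exact add_mem (non_mem hb) (const_O W d)
  have h2 : a * b - algebraMap κ M (c * d) =
      b * (a - algebraMap κ M c) + algebraMap κ M c * (b - algebraMap κ M d) := by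
    rw [map_mul]; ring
  rw [h2]
  exact non_add (non_mul hbO ha) (non_mul (const_O W c) hb)

theorem cong_unique {W : Place κ M} {a : M} {c d : κ} (ha : a - algebraMap κ M c ∈ W.O.nonunits)
    (hb : a - algebraMap κ M d ∈ W.O.nonunits) : c = d := by
  have h1 : algebraMap κ M (d - c) = (a - algebraMap κ M c) - (a - algebraMap κ M d) := by
    rw [map_sub]; ring
  have h2 := const_non (W := W) (c := d - c) (by rw [h1]; exact non_sub ha hb)
  exact (sub_eq_zero.1 h2).symm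

end basic

section tame

variable {κ R M : Type} [Field κ] [IsAlgClosed κ] [CharZero κ] [Field R] [Field M] [Algebra κ R] [Algebra R M]
  [Algebra κ M] [IsScalarTower κ R M] {x : R}

theorem gconst (γ : M ≃ₐ[R] M) (c : κ) : γ (algebraMap κ M c) = algebraMap κ M c := by
  rw [IsScalarTower.algebraMap_apply κ R M, γ.commutes]

theorem fixNon {W : Place κ M} {γ : M ≃ₐ[R] M} (h : Fixes W γ) (z : M) :
    γ z ∈ W.O.nonunits ↔ z ∈ W.O.nonunits := fix_non (τ := (γ : M ≃+* M)) h z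

/-- units are fixed modulo the maximal ideal -/
theorem unit_cong (hx : RatF κ x) [Algebra.IsAlgebraic R M] {W : Place κ M} {γ : M ≃ₐ[R] M}
    (hγ : Fixes W γ) {u : M} (hu : u ≠ 0) (hu0 : W.ord u = 0) :
    ∃ c : κ, c ≠ 0 ∧ u - algebraMap κ M c ∈ W.O.nonunits ∧
      γ u - algebraMap κ M c ∈ W.O.nonunits ∧ γ u / u - algebraMap κ M 1 ∈ W.O.nonunits := by
  obtain ⟨c, hc⟩ := Pool.Agent.Y536.PS.res_const κ M (algebraMap R M x)
    (Pool.Agent.Y31.PS.alg_adjoin hx) W u hu0.ge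
  have h1 : u - algebraMap κ M c ∈ W.O.nonunits := by
    rcases hc with h | h
    · rw [h, sub_self]; exact zero_non' W
    · have h0 : u - algebraMap κ M c ≠ 0 := by
        intro h0
        rw [h0, W.ord_zero] at h
        exact lt_irrefl _ h
      exact (O_non_iff W h0).2 h
  have hc0 : c ≠ 0 := by
    rintro rfl
    rw [map_zero, sub_zero, O_non_iff W hu, hu0] at h1
    exact lt_irrefl _ h1
  have h2 : γ u - algebraMap κ M c ∈ W.O.nonunits := by
    have h3 := (fixNon hγ (u - algebraMap κ M c)).2 h1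
    rwa [map_sub, gconst] at h3
  refine ⟨c, hc0, h1, h2, ?_⟩
  have h4 : γ u / u - algebraMap κ M 1 = u⁻¹ * ((γ u - algebraMap κ M c) -
      (u - algebraMap κ M c)) := by
    rw [map_one]; field_simp; ring
  rw [h4]
  refine non_mul ?_ (non_sub h2 h1)
  rw [O_iff W (inv_ne_zero hu), W.ord_inv, hu0, neg_zero]

/-- the value of the tame character -/
theorem exists_chi (hx : RatF κ x) [Algebra.IsAlgebraic R M] {W : Place κ M} {γ : M ≃ₐ[R] M}
    (hγ : Fixes W γ) {π : M} (hπ0 : π ≠ 0) :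
    ∃ c : κ, c ≠ 0 ∧ γ π / π - algebraMap κ M c ∈ W.O.nonunits := by
  have hγπ : γ π ≠ 0 := (map_ne_zero_iff γ γ.injective).2 hπ0
  obtain ⟨c, h0, h1, -, -⟩ := unit_cong hx hγ (u := γ π / π) (div_ne_zero hγπ hπ0) (by
    rw [W.ord_div hγπ hπ0, hγ, sub_self])
  exact ⟨c, h0, h1⟩

/-- the tame character does not depend on the uniformiser -/
theorem chi_indep (hx : RatF κ x) [Algebra.IsAlgebraic R M] {W : Place κ M} {γ : M ≃ₐ[R] M}
    (hγ : Fixes W γ) {π π' : M} (hπ0 : π ≠ 0) (hπ0' : π' ≠ 0) (hππ : W.ord π = W.ord π') {c : κ}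
    (h : γ π / π - algebraMap κ M c ∈ W.O.nonunits) :
    γ π' / π' - algebraMap κ M c ∈ W.O.nonunits := by
  obtain ⟨-, -, -, -, h1⟩ := unit_cong hx hγ (u := π' / π) (div_ne_zero hπ0' hπ0) (by
    rw [W.ord_div hπ0' hπ0, hππ, sub_self])
  have h2 := mul_cong h1 h
  have hγπ : γ π ≠ 0 := (map_ne_zero_iff γ γ.injective).2 hπ0
  have h3 : γ (π' / π) / (π' / π) * (γ π / π) = γ π' / π' := by
    rw [map_div₀]; field_simp
  rwa [h3, one_mul] at h2

/-- the tame character is a homomorphism -/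
theorem chi_mul (hx : RatF κ x) [Algebra.IsAlgebraic R M] {W : Place κ M} {γ γ' : M ≃ₐ[R] M}
    (hγ : Fixes W γ) (hγ' : Fixes W γ') {π : M} (hπ0 : π ≠ 0) {c c' : κ}
    (h : γ π / π - algebraMap κ M c ∈ W.O.nonunits)
    (h' : γ' π / π - algebraMap κ M c' ∈ W.O.nonunits) :
    (γ * γ') π / π - algebraMap κ M (c * c') ∈ W.O.nonunits := by
  have hγπ : γ' π ≠ 0 := (map_ne_zero_iff γ' γ'.injective).2 hπ0
  have h1 := chi_indep hx hγ hπ0 hγπ (hγ' π).symm h
  have h2 := mul_cong h1 h'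
  have h3 : γ (γ' π) / γ' π * (γ' π / π) = (γ * γ') π / π := by
    change _ = γ (γ' π) / π
    field_simp
  rwa [h3] at h2

theorem chi_one {W : Place κ M} {π : M} (hπ0 : π ≠ 0) :
    (1 : M ≃ₐ[R] M) π / π - algebraMap κ M 1 ∈ W.O.nonunits := by
  change π / π - _ ∈ _
  rw [div_self hπ0, map_one, sub_self]
  exact zero_non' W

theorem chi_pow (hx : RatF κ x) [Algebra.IsAlgebraic R M] {W : Place κ M} {γ : M ≃ₐ[R] M}
    (hγ : Fixes W γ) {π : M} (hπ0 : π ≠ 0) {c : κ}
    (h : γ π / π - algebraMap κ M c ∈ W.O.nonunits) (n : ℕ) :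
    (γ ^ n) π / π - algebraMap κ M (c ^ n) ∈ W.O.nonunits := by
  induction n with
  | zero =>
    rw [pow_zero, pow_zero]
    exact chi_one (R := R) hπ0
  | succ n ih =>
    rw [pow_succ, pow_succ]
    exact chi_mul hx (Fixes.pow hγ n) hγ hπ0 ih h

/-- an automorphism with trivial `n`-th power has a tame character with trivial `n`-th power -/
theorem chi_tors (hx : RatF κ x) [Algebra.IsAlgebraic R M] {W : Place κ M} {γ : M ≃ₐ[R] M}
    (hγ : Fixes W γ) {π : M} (hπ0 : π ≠ 0) {c : κ}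
    (h : γ π / π - algebraMap κ M c ∈ W.O.nonunits) {n : ℕ} (hn : γ ^ n = 1) : c ^ n = 1 := by
  have h1 := chi_pow hx hγ hπ0 h n
  rw [hn] at h1
  exact cong_unique h1 (chi_one (R := R) hπ0)

/-- the tame character and semilinear automorphisms -/
theorem chi_semi (hx : RatF κ x) [Algebra.IsAlgebraic R M] {W : Place κ M} {γ η : M ≃ₐ[R] M}
    (hγ : Fixes W γ) {τ : M ≃+* M} {τ₀ : κ ≃+* κ}
    (hτc : ∀ c, τ (algebraMap κ M c) = algebraMap κ M (τ₀ c)) (hτ : Fixes W τ)
    (hη : ∀ z, τ (η z) = γ (τ z)) {π : M} (hπ0 : π ≠ 0) {c : κ}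
    (h : γ π / π - algebraMap κ M (τ₀ c) ∈ W.O.nonunits) :
    η π / π - algebraMap κ M c ∈ W.O.nonunits := by
  rw [← fix_non hτ, map_sub, map_div₀, hη, hτc]
  exact chi_indep hx hγ hπ0 ((map_ne_zero_iff τ τ.injective).2 hπ0) (hτ π).symm h

variable {ℓ : ℕ} [Fact ℓ.Prime] {N₀ : IntermediateField R M}

/-- the values of the tame character are roots of unity -/
theorem chi_root (hx : RatF κ x) [Algebra.IsAlgebraic R M] [Normal R M] (hN : Lev ℓ N₀) {m : ℕ}
    (hm : Module.finrank R N₀ = ℓ ^ m)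
    {W : Place κ M} {γ : M ≃ₐ[R] M} (hγ : Fixes W γ) {ρ : M} (hρ : ρ ∈ N₀) (hρ0 : ρ ≠ 0) {c : κ}
    (h : γ ρ / ρ - algebraMap κ M c ∈ W.O.nonunits) : c ^ (ℓ ^ m) = 1 := by
  have h1 := chi_pow hx hγ hρ0 h (ℓ ^ m)
  rw [lev_pow hN hm γ ρ hρ] at h1
  exact cong_unique h1 (chi_one (R := R) hρ0)

/-- the tame character is injective -/
theorem chi_inj (hx : RatF κ x) [Algebra.IsAlgebraic R M] [Normal R M] (hN : Lev ℓ N₀)
    {W : Place κ M} {γ : M ≃ₐ[R] M}
    (hγ : Fixes W γ) {ρ : M} (hρ : ρ ∈ N₀) (hρ1 : W.ord ρ = 1)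
    (h : γ ρ / ρ - algebraMap κ M 1 ∈ W.O.nonunits) : γ = 1 := by
  classical
  have hp := (Fact.out : ℓ.Prime).pos
  obtain ⟨m, hm⟩ := hN.card
  have hρ0 := ne_of_ord hρ1
  have h1 : ∀ n : ℕ, (γ ^ n) ρ / ρ - algebraMap κ M 1 ∈ W.O.nonunits := by
    intro n
    have h2 := chi_pow hx hγ hρ0 h n
    rwa [one_pow] at h2
  obtain ⟨t, ht⟩ : ∃ t : M, t = ∑ i ∈ Finset.range (ℓ ^ m), (γ ^ i) ρ := ⟨_, rfl⟩
  have hγt : γ t = t := by
    have h2 : γ t = ∑ i ∈ Finset.range (ℓ ^ m), (γ ^ (i + 1)) ρ := by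
      rw [ht, map_sum]
      refine Finset.sum_congr rfl fun i _ => ?_
      rw [pow_succ']
      rfl
    have h3 : ∑ i ∈ Finset.range (ℓ ^ m), (γ ^ (i + 1)) ρ + (γ ^ 0) ρ =
        ∑ i ∈ Finset.range (ℓ ^ m), (γ ^ i) ρ + (γ ^ (ℓ ^ m)) ρ := by
      rw [← Finset.sum_range_succ' (fun i => (γ ^ i) ρ), Finset.sum_range_succ]
    rw [lev_pow hN hm γ ρ hρ, pow_zero] at h3
    change _ + ρ = _ + ρ at h3
    rw [h2, add_right_cancel h3, ht]
  -- `t / ρ` is congruent to `ℓ ^ m`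
  have h4 : ∀ n : ℕ, (∑ i ∈ Finset.range n, (γ ^ i) ρ) / ρ - (n : M) ∈ W.O.nonunits := by
    intro n
    induction n with
    | zero => rw [Finset.sum_range_zero, zero_div, Nat.cast_zero, sub_zero]; exact zero_non' W
    | succ n ih =>
      have h5 := h1 n
      rw [map_one] at h5
      have h6 : (∑ i ∈ Finset.range (n + 1), (γ ^ i) ρ) / ρ - ((n + 1 : ℕ) : M) =
          ((∑ i ∈ Finset.range n, (γ ^ i) ρ) / ρ - (n : M)) + ((γ ^ n) ρ / ρ - 1) := by
        rw [Finset.sum_range_succ, add_div]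
        push_cast
        ring
      rw [h6]
      exact non_add ih h5
  have h5 := h4 (ℓ ^ m)
  rw [← ht] at h5
  have h6 : ((ℓ ^ m : ℕ) : M) = algebraMap κ M ((ℓ ^ m : ℕ) : κ) := by rw [map_natCast]
  rw [h6] at h5
  have h7 : ((ℓ ^ m : ℕ) : κ) ≠ 0 := by
    rw [Nat.cast_ne_zero]
    exact (pow_pos hp m).ne'
  have h8 : t / ρ ≠ 0 := by
    intro h0
    rw [h0, zero_sub] at h5
    have h9 := non_neg h5
    rw [neg_neg] at h9
    exact h7 (const_non h9)
  have ht0 : t ≠ 0 := fun h0 => h8 (by rw [h0, zero_div])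
  have h9 : W.ord (t / ρ) = 0 := by
    have ha : t / ρ ∈ W.O := by
      have hb : t / ρ = (t / ρ - algebraMap κ M ((ℓ ^ m : ℕ) : κ)) +
          algebraMap κ M ((ℓ ^ m : ℕ) : κ) := by ring
      rw [hb]
      exact add_mem (non_mem h5) (const_O W _)
    have hb : ¬ 0 < W.ord (t / ρ) := by
      intro h0
      have h10 := (O_non_iff W h8).2 h0
      have h11 := non_sub h10 h5
      rw [sub_sub_cancel] at h11
      exact h7 (const_non h11)
    have hc := (O_iff W h8).1 ha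
    omega
  rw [W.ord_div ht0 hρ0, hρ1] at h9
  exact stab_triv a_stab hx W γ hγ (π := t) (by omega) hγt

end tame

end Pool.Agent.H889.SY
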